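import Pool.Agent.Helper50.HA.Core

/-!
# The two-party inequality with known coordinates
-/

set_option autoImplicit false

open Finset
open scoped BigOperators

namespace Pool.Agent.Helper5.HB

open Pool.Agent.Helper50.HA
open Pool.Agent.Helper8.VS (resample expect_prod ind ind_nonneg ind_le_one ind_true ind_false)

section
variable {Y V : Type} [Fintype Y] [DecidableEq Y] [Fintype V] [Nonempty V]

/-- Superadditivity of the relative entropy. -/
theorem sum_ent (R : (Y → V) → Prop) (hR : 0 < pS R) :
    ∑ e, 𝔼 a, den R e a * Real.log (den R e a) ≤ -Real.log (pS R) := by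
  classical
  set p := pS R with hp
  have h1 : ∀ e, 𝔼 a, den R e a * Real.log (den R e a) =
      (𝔼 X, ind (R X) * Real.log (den R e (X e))) / p := by
    intro e
    rw [← resample e (fun X a => ind (R X) * Real.log (den R e a)), Finset.expect_div]
    refine Finset.expect_congr rfl fun a _ => ?_
    rw [← Finset.expect_mul]
    show pC R e a / p * _ = pC R e a * _ / p
    ring
  have h2 : ∀ X : Y → V, ind (R X) * ∑ e, Real.log (den R e (X e)) ≤
      p * (∏ e, den R e (X e)) - ind (R X) - ind (R X) * Real.log p := by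
    intro X
    by_cases hX : R X
    · rw [ind_true hX]
      have hpos : ∀ e, 0 < den R e (X e) := by
        intro e
        refine div_pos ?_ hR
        unfold pC
        refine Finset.expect_pos' (fun Y _ => ind_nonneg _) ⟨X, Finset.mem_univ _, ?_⟩
        rw [Function.update_eq_self, ind_true hX]
        exact one_pos
      have e1 : Real.log (p * ∏ e, den R e (X e)) =
          Real.log p + ∑ e, Real.log (den R e (X e)) := by
        rw [Real.log_mul hR.ne' (Finset.prod_ne_zero_iff.2 fun e _ => (hpos e).ne'),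
          Real.log_prod (fun e _ => (hpos e).ne')]
      have e2 := Real.log_le_sub_one_of_pos
        (mul_pos hR (Finset.prod_pos fun e _ => hpos e) : 0 < p * ∏ e, den R e (X e))
      linarith
    · rw [ind_false hX]
      have : 0 ≤ p * ∏ e, den R e (X e) :=
        mul_nonneg hR.le (Finset.prod_nonneg fun e _ => den_nonneg R e _)
      linarith
  have h3 : 𝔼 X : Y → V, ∏ e, den R e (X e) = 1 := by
    rw [expect_prod (fun e a => den R e a)]
    simp only [expect_den R hR, Finset.prod_const_one]
  calc ∑ e, 𝔼 a, den R e a * Real.log (den R e a)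
      = (𝔼 X : Y → V, ind (R X) * ∑ e, Real.log (den R e (X e))) / p := by
        simp only [h1]
        rw [← Finset.sum_div]
        congr 1
        rw [← Finset.expect_sum_comm]
        refine Finset.expect_congr rfl fun X _ => ?_
        rw [Finset.mul_sum]
    _ ≤ (𝔼 X : Y → V, (p * (∏ e, den R e (X e)) - ind (R X) -
          ind (R X) * Real.log p)) / p :=
        div_le_div_of_nonneg_right (Finset.expect_le_expect fun X _ => h2 X) hR.le
    _ = (p * 1 - p - p * Real.log p) / p := by
        congr 1
        rw [Finset.expect_sub_distrib, Finset.expect_sub_distrib, ← Finset.mul_expect, h3,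
          ← Finset.expect_mul]
        rfl
    _ = -Real.log p := by field_simp; ring

/-- A coordinate which is constant on the set has entropy `log |V|`. -/
theorem ent_known (R : (Y → V) → Prop) (hR : 0 < pS R) (z : Y)
    (hz : ∀ b b', R b → R b' → b z = b' z) :
    𝔼 a, den R z a * Real.log (den R z a) = Real.log (Fintype.card V) := by
  classical
  obtain ⟨b0, hb0⟩ : ∃ b, R b := by
    by_contra h
    push Not at h
    have : pS R = 0 := by
      unfold pS
      simp only [ind_false (h _), Finset.expect_const_zero]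
    linarith
  have h0 : ∀ a, a ≠ b0 z → den R z a = 0 := by
    intro a ha
    unfold den pC
    have : ∀ X : Y → V, ind (R (Function.update X z a)) = 0 := by
      intro X
      refine ind_false fun h => ha ?_
      have := hz _ _ h hb0
      rwa [Function.update_self] at this
    simp only [this, Finset.expect_const_zero, zero_div]
  have hs := expect_den R hR z
  have hN : (0 : ℝ) < Fintype.card V := by exact_mod_cast Fintype.card_pos
  rw [Fintype.expect_eq_sum_div_card, Finset.sum_eq_single (b0 z) (fun a _ ha => h0 a ha)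
    (fun h => absurd (Finset.mem_univ _) h), div_eq_iff hN.ne', one_mul] at hs
  rw [Fintype.expect_eq_sum_div_card, Finset.sum_eq_single (b0 z)
    (fun a _ ha => by rw [h0 a ha, zero_mul])
    (fun h => absurd (Finset.mem_univ _) h), hs]
  field_simp

theorem sum_hel_known (R : (Y → V) → Prop) (hR : 0 < pS R) (D : Finset Y)
    (hD : ∀ b b', R b → R b' → ∀ z ∈ D, b z = b' z) :
    ∑ z ∈ Dᶜ, hel (den R z) ≤ -Real.log (pS R) - D.card * Real.log (Fintype.card V) := by
  have h1 := sum_ent R hR
  rw [← Finset.sum_add_sum_compl D] at h1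
  have h2 : ∑ z ∈ D, 𝔼 a, den R z a * Real.log (den R z a) =
      D.card * Real.log (Fintype.card V) := by
    rw [Finset.sum_congr rfl fun z hz => ent_known R hR z fun b b' hb hb' => hD b b' hb hb' z hz,
      Finset.sum_const, nsmul_eq_mul]
  have h3 : ∑ z ∈ Dᶜ, hel (den R z) ≤ ∑ z ∈ Dᶜ, 𝔼 a, den R z a * Real.log (den R z a) :=
    Finset.sum_le_sum fun z _ => hel_le_ent _ (den_nonneg R z) (expect_den R hR z)
  linarith

theorem rect_planted' {Λ : Type} [Fintype Λ] (τ : (Y → V) → (Y → V) → Λ)
    (hrect : ∀ a b a' b', τ a b = τ a' b' → τ a b' = τ a b) (ψ : Λ → ℝ) (y z : Y) :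
    𝔼 a, 𝔼 b, ψ (τ (Function.update a y (b z)) b) =
      ∑ l, ψ l * 𝔼 u, pC (RA τ l) y u * pC (RB τ l) z u := by
  simp only [rect_sum τ hrect ψ]
  rw [Finset.expect_comm]
  simp only [Finset.expect_sum_comm, ← Finset.mul_expect]
  refine Finset.sum_congr rfl fun l _ => ?_
  congr 1
  have h := resample z (fun (b : Y → V) (u : V) => pC (RA τ l) y u * ind (RB τ l b))
  simp only at h
  have h2 : 𝔼 b, 𝔼 a, ind (RA τ l (Function.update a y (b z))) * ind (RB τ l b) =
      𝔼 b, pC (RA τ l) y (b z) * ind (RB τ l b) := by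
    refine Finset.expect_congr rfl fun b _ => ?_
    rw [← Finset.expect_mul]
    rfl
  rw [h2, ← h]
  refine Finset.expect_congr rfl fun u _ => ?_
  rw [← Finset.mul_expect]
  rfl

end

/-- The transcripts `τ a b` are constant on rectangles, `W` are weights with sum at most `1`; the
coordinates of `b` in `D l` are determined by the transcript `l`. Coordinate `y` of `a` is replaced
by coordinate `e y` of `b`. -/
theorem two_party_known {Y V Λ : Type} [Fintype Y] [DecidableEq Y] [Fintype V] [Nonempty V]
    [Fintype Λ] (τ : (Y → V) → (Y → V) → Λ)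
    (hrect : ∀ a b a' b', τ a b = τ a' b' → τ a b' = τ a b)
    (W : Λ → ℝ) (hW0 : ∀ l, 0 ≤ W l) (hWp : ∀ a b, 0 < W (τ a b)) (hW1 : ∑ l, W l ≤ 1)
    (D : Λ → Finset Y) (hD : ∀ a b a' b', τ a b = τ a' b' → ∀ y ∈ D (τ a b), b y = b' y)
    (e : Y ≃ Y) (φ : Λ → ℝ) (h0 : ∀ l, 0 ≤ φ l) (h1 : ∀ l, φ l ≤ 1) :
    ∑ y, (𝔼 a : Y → V, 𝔼 b : Y → V,
      (φ (τ a b) - φ (τ (Function.update a y (b (e y))) b))) ≤
      𝔼 a : Y → V, 𝔼 b : Y → V, (2 * (-Real.log (W (τ a b)) -
        (D (τ a b)).card * Real.log (Fintype.card V)) + (D (τ a b)).card) := by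
  classical
  rw [rect_expect τ hrect (fun l => 2 * (-Real.log (W l) -
        (D l).card * Real.log (Fintype.card V)) + (D l).card)]
  simp only [Finset.expect_sub_distrib, rect_planted' τ hrect φ, rect_expect τ hrect φ,
    ← Finset.sum_sub_distrib]
  rw [Finset.sum_comm]
  set P : Λ → ℝ := fun l => pS (RA τ l) * pS (RB τ l) with hP
  have hP0 : ∀ l, 0 ≤ P l := fun l => mul_nonneg (pS_nonneg _) (pS_nonneg _)
  have hP1 : ∑ l, P l = 1 := by
    have := rect_expect τ hrect (fun _ => (1 : ℝ))
    simp only [Finset.expect_const Finset.univ_nonempty, one_mul] at this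
    exact this.symm
  -- one transcript
  have step : ∀ l, ∑ y, (φ l * (pS (RA τ l) * pS (RB τ l)) -
      φ l * 𝔼 u, pC (RA τ l) y u * pC (RB τ l) (e y) u) ≤
      P l * ((D l).card + 2 * (-Real.log (P l) - (D l).card * Real.log (Fintype.card V))) := by
    intro l
    have hnn : ∀ y, 0 ≤ 𝔼 u, pC (RA τ l) y u * pC (RB τ l) (e y) u := fun y =>
      Finset.expect_nonneg fun u _ => mul_nonneg (pC_nonneg _ _ _) (pC_nonneg _ _ _)
    rcases (pS_nonneg (RA τ l)).eq_or_lt with hA | hA
    · have hPl : P l = 0 := by simp only [hP]; rw [← hA]; ring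
      rw [hPl, ← hA]
      simp only [zero_mul, mul_zero, zero_sub]
      exact Finset.sum_nonpos fun y _ => neg_nonpos.2 (mul_nonneg (h0 l) (hnn y))
    rcases (pS_nonneg (RB τ l)).eq_or_lt with hB | hB
    · have hPl : P l = 0 := by simp only [hP]; rw [← hB]; ring
      rw [hPl, ← hB]
      simp only [mul_zero, zero_mul, zero_sub]
      exact Finset.sum_nonpos fun y _ => neg_nonpos.2 (mul_nonneg (h0 l) (hnn y))
    have hPpos : 0 < P l := mul_pos hA hB
    -- the trivial bound
    have htriv : ∀ y, φ l * (pS (RA τ l) * pS (RB τ l)) -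
        φ l * 𝔼 u, pC (RA τ l) y u * pC (RB τ l) (e y) u ≤ P l := by
      intro y
      have := mul_nonneg (h0 l) (hnn y)
      have h2 : φ l * P l ≤ 1 * P l := mul_le_mul_of_nonneg_right (h1 l) (hP0 l)
      have h3 : φ l * P l = φ l * (pS (RA τ l) * pS (RB τ l)) := rfl
      linarith
    have hterm : ∀ y, φ l * (pS (RA τ l) * pS (RB τ l)) -
        φ l * 𝔼 u, pC (RA τ l) y u * pC (RB τ l) (e y) u ≤
        P l * (2 * (hel (den (RA τ l) y) + hel (den (RB τ l) (e y)))) := by
      intro y
      have e1 : 𝔼 u, pC (RA τ l) y u * pC (RB τ l) (e y) u =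
          P l * 𝔼 u, den (RA τ l) y u * den (RB τ l) (e y) u := by
        rw [Finset.mul_expect]
        refine Finset.expect_congr rfl fun u _ => ?_
        simp only [den, hP]
        field_simp
      have e2 := corr (den (RA τ l) y) (den (RB τ l) (e y))
        (den_nonneg _ _) (den_nonneg _ _) (expect_den _ hA y) (expect_den _ hB (e y))
      rw [e1]
      have e4 : φ l * (pS (RA τ l) * pS (RB τ l)) -
          φ l * (P l * 𝔼 u, den (RA τ l) y u * den (RB τ l) (e y) u) =
          φ l * (P l * (1 - 𝔼 u, den (RA τ l) y u * den (RB τ l) (e y) u)) := by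
        simp only [hP]; ring
      rw [e4]
      have hh : 0 ≤ 2 * (hel (den (RA τ l) y) + hel (den (RB τ l) (e y))) := by
        have := hel_nonneg (den (RA τ l) y)
        have := hel_nonneg (den (RB τ l) (e y))
        linarith
      calc φ l * (P l * (1 - 𝔼 u, den (RA τ l) y u * den (RB τ l) (e y) u)) ≤
          φ l * (P l * (2 * (hel (den (RA τ l) y) + hel (den (RB τ l) (e y))))) :=
            mul_le_mul_of_nonneg_left (mul_le_mul_of_nonneg_left e2 (hP0 l)) (h0 l)
        _ ≤ 1 * (P l * (2 * (hel (den (RA τ l) y) + hel (den (RB τ l) (e y))))) :=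
            mul_le_mul_of_nonneg_right (h1 l) (mul_nonneg (hP0 l) hh)
        _ = _ := one_mul _
    -- the two kinds of coordinates
    set E : Finset Y := (D l).map e.symm.toEmbedding with hE
    have hEc : (E.card : ℝ) = (D l).card := by rw [hE, Finset.card_map]
    have hEm : ∀ y, y ∈ E ↔ e y ∈ D l := by
      intro y
      rw [hE, Finset.mem_map]
      constructor
      · rintro ⟨z, hz, rfl⟩
        simpa using hz
      · intro h
        exact ⟨e y, h, by simp⟩
    have hDl : ∀ b b', RB τ l b → RB τ l b' → ∀ z ∈ D l, b z = b' z := by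
      rintro b b' ⟨a, rfl⟩ ⟨a', ha'⟩ z hz
      exact hD a b a' b' ha'.symm z hz
    have hsB : ∑ y ∈ Eᶜ, hel (den (RB τ l) (e y)) = ∑ z ∈ (D l)ᶜ, hel (den (RB τ l) z) := by
      refine Finset.sum_equiv e ?_ fun _ _ => rfl
      intro y
      rw [Finset.mem_compl, Finset.mem_compl, hEm]
    have hsA : ∑ y ∈ Eᶜ, hel (den (RA τ l) y) ≤ -Real.log (pS (RA τ l)) := by
      refine le_trans ?_ (sum_hel (RA τ l) hA)
      exact Finset.sum_le_univ_sum_of_nonneg fun y => hel_nonneg _
    have hsB' := sum_hel_known (RB τ l) hB (D l) hDl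
    have hlog : Real.log (P l) = Real.log (pS (RA τ l)) + Real.log (pS (RB τ l)) := by
      simp only [hP]
      rw [Real.log_mul hA.ne' hB.ne']
    rw [← Finset.sum_add_sum_compl E]
    calc _ ≤ ∑ y ∈ E, P l +
          ∑ y ∈ Eᶜ, P l * (2 * (hel (den (RA τ l) y) + hel (den (RB τ l) (e y)))) :=
          add_le_add (Finset.sum_le_sum fun y _ => htriv y)
            (Finset.sum_le_sum fun y _ => hterm y)
      _ = P l * ((D l).card + 2 * (∑ y ∈ Eᶜ, hel (den (RA τ l) y) +
            ∑ z ∈ (D l)ᶜ, hel (den (RB τ l) z))) := by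
          rw [← hsB, Finset.sum_const, nsmul_eq_mul, hEc, ← Finset.mul_sum, ← Finset.mul_sum,
            Finset.sum_add_distrib]
          ring
      _ ≤ _ := by
          refine mul_le_mul_of_nonneg_left ?_ (hP0 l)
          linarith
  -- Gibbs
  have gibbs : ∀ l, P l * -Real.log (P l) ≤ -Real.log (W l) * P l + (W l - P l) := by
    intro l
    rcases (hP0 l).eq_or_lt with z | z
    · rw [← z]; simp [hW0 l]
    · have hWl : 0 < W l := by
        have hA : 0 < pS (RA τ l) := by
          rcases (pS_nonneg (RA τ l)).eq_or_lt with hA | hA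
          · simp only [hP, ← hA, zero_mul, lt_irrefl] at z
          · exact hA
        obtain ⟨a, b, hab⟩ : ∃ a b, τ a b = l := by
          by_contra h
          push Not at h
          have : pS (RA τ l) = 0 := by
            unfold pS
            have h2 : ∀ X, ind (RA τ l X) = 0 := fun X => ind_false fun ⟨b, hb⟩ => h X b hb
            simp only [h2, Finset.expect_const_zero]
          linarith
        rw [← hab]; exact hWp a b
      have h2 := Real.log_le_sub_one_of_pos (div_pos hWl z)
      rw [Real.log_div hWl.ne' z.ne'] at h2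
      have h3 : P l * (W l / P l) = W l := by field_simp
      nlinarith [mul_le_mul_of_nonneg_left h2 z.le]
  calc _ ≤ ∑ l, P l * ((D l).card +
          2 * (-Real.log (P l) - (D l).card * Real.log (Fintype.card V))) :=
        Finset.sum_le_sum fun l _ => step l
    _ ≤ ∑ l, ((2 * (-Real.log (W l) - (D l).card * Real.log (Fintype.card V)) +
          (D l).card) * P l + 2 * (W l - P l)) :=
        Finset.sum_le_sum fun l _ => by linarith [gibbs l]
    _ = (∑ l, (2 * (-Real.log (W l) - (D l).card * Real.log (Fintype.card V)) +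
          (D l).card) * P l) + 2 * (∑ l, W l - ∑ l, P l) := by
        rw [Finset.sum_add_distrib, ← Finset.mul_sum, Finset.sum_sub_distrib]
    _ ≤ _ := by rw [hP1]; linarith

end Pool.Agent.Helper5.HB
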