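import Pool.Agent.Helper5.HA.Defs

/-!
# Segmented machines

In every phase at most `q` blocks of `g` consecutive rows of the matrix `A` are open (block number
`i / g` for row `i`), and at most `r` of the other weights are read; the blocks and the cells are
determined by the memory state at the beginning of the phase. The next state is an arbitrary
function of what has been read.
-/

set_option autoImplicit false

namespace Pool.Agent.Helper5.HB

open Pool.Agent.Helper22.ETModel Pool.Agent.Helper5.HA

/-- What is visible in a phase: the rows of `A` in the blocks `O` and the other weights in the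
cells `C`; zeros elsewhere. -/
def see {n : ℕ} (g : ℕ) (O : Finset ℕ) (C : Finset (Fin n × Fin n)) (w : Wts n) : Wts n :=
  fun i j => if InA n i j then (if (i : ℕ) / g ∈ O then w i j else 0)
    else if (i, j) ∈ C then hide w i j else 0

/-- A randomized segmented machine with `R` random bits and the memory states `S`. -/
structure Seg (n : ℕ) (S : Type) (g q r R : ℕ) where
  init : (Fin R → Bool) → S
  opn : (Fin R → Bool) → ℕ → S → Finset ℕ
  card_opn : ∀ ρ p s, (opn ρ p s).card ≤ q
  prb : (Fin R → Bool) → ℕ → S → Finset (Fin n × Fin n)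
  card_prb : ∀ ρ p s, (prb ρ p s).card ≤ r
  act : (Fin R → Bool) → ℕ → S → Wts n → S
  out : (Fin R → Bool) → S → Bool

/-- One phase. -/
def Seg.step {n : ℕ} {S : Type} {g q r R : ℕ} (M : Seg n S g q r R) (w : Wts n)
    (ρ : Fin R → Bool) (p : ℕ) (s : S) : S :=
  M.act ρ p s (see g (M.opn ρ p s) (M.prb ρ p s) w)

/-- State after `p` phases. -/
def Seg.run {n : ℕ} {S : Type} {g q r R : ℕ} (M : Seg n S g q r R) (w : Wts n)
    (ρ : Fin R → Bool) : ℕ → S
  | 0 => M.init ρ
  | p + 1 => M.step w ρ p (M.run w ρ p)

/-- The machine decides, with `P` phases and bounded error, Exact Triangle on the valid instances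
that are complete tripartite with the classes `part`. -/
def Seg.Decides {n : ℕ} {S : Type} {g q r R : ℕ} (M : Seg n S g q r R) (P : ℕ) : Prop :=
  ∀ I : Inst n, I.Valid → Thirds I → 2 * 2 ^ R ≤ 3 * {ρ : Fin R → Bool |
    M.out ρ (M.run I.wt ρ P) = true ↔ I.Yes}.ncard

end Pool.Agent.Helper5.HB
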