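import Pool.Agent.Helper5.HB.Main

/-!
# The lower bound for segmented machines: arithmetic
-/

set_option autoImplicit false

namespace Pool.Agent.Helper5.HB

open Pool.Agent.Helper22.ETModel Pool.Agent.Helper5.HA

theorem seg_numeric (n g P q r : ℕ) (L : ℝ) (hn : 3 ≤ n) (hg : 1 ≤ g) (hgn : g ≤ n / 3)
    (hL : 0 ≤ L) (h : ((n / 3 / g : ℕ) : ℝ) ^ 2 * (g : ℝ) ^ 2 * (n / 3 : ℕ) *
      (1 / 3 - ((n / 3 : ℕ) : ℝ) ^ 3 / ((n ^ 4 : ℕ) : ℝ)) ≤
      g * (2 * ((n / 3 / g : ℕ) : ℝ) ^ 2 * (Real.log 2 + Real.log 3) +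
        P * q * (2 * (n / 3 / g : ℕ) * L + r))) :
    (n : ℝ) ^ 3 ≤ 2 ^ 12 * ((n : ℝ) ^ 2 / g + P * q * (n * L + g * r)) := by
  have hm5 : n ≤ 5 * (n / 3) := by omega
  have hm3 : 3 * (n / 3) ≤ n := by omega
  have hB1 : 1 ≤ n / 3 / g := Nat.div_pos hgn hg
  have hx1 : g * (n / 3 / g) ≤ n / 3 := Nat.mul_div_le _ _
  have hx2 : n / 3 ≤ 2 * (g * (n / 3 / g)) := by
    have h1 := Nat.div_add_mod (n / 3) g
    have h2 := Nat.mod_lt (n / 3) (show 0 < g by omega)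
    have h3 : g * 1 ≤ g * (n / 3 / g) := Nat.mul_le_mul_left g hB1
    omega
  set m : ℝ := ((n / 3 : ℕ) : ℝ) with hm
  set B : ℝ := ((n / 3 / g : ℕ) : ℝ) with hB
  have hn3 : (3 : ℝ) ≤ n := by exact_mod_cast hn
  have hg1 : (1 : ℝ) ≤ g := by exact_mod_cast hg
  have hm5' : (n : ℝ) ≤ 5 * m := by rw [hm]; exact_mod_cast hm5
  have hm3' : 3 * m ≤ n := by rw [hm]; exact_mod_cast hm3
  have hx1' : (g : ℝ) * B ≤ m := by rw [hm, hB]; exact_mod_cast hx1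
  have hx2' : m ≤ 2 * ((g : ℝ) * B) := by rw [hm, hB]; exact_mod_cast hx2
  have hm0 : 0 < m := by linarith
  have hPq : (0 : ℝ) ≤ (P : ℝ) * q := by positivity
  have hr0 : (0 : ℝ) ≤ r := Nat.cast_nonneg _
  set x : ℝ := (g : ℝ) * B with hx
  have hx0 : 0 ≤ x := by positivity
  -- left side
  have h81 : (26 / 81 : ℝ) ≤ 1 / 3 - m ^ 3 / ((n ^ 4 : ℕ) : ℝ) := by
    have h1 : m ^ 3 / ((n ^ 4 : ℕ) : ℝ) ≤ 1 / 81 := by
      push_cast
      rw [div_le_div_iff₀ (by positivity) (by norm_num)]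
      have h2 : (3 * m) ^ 3 ≤ (n : ℝ) ^ 3 := pow_le_pow_left₀ (by positivity) hm3' 3
      have h3 : (0 : ℝ) ≤ (n : ℝ) ^ 3 := by positivity
      nlinarith
    linarith
  have hlhs : (n : ℝ) ^ 3 / 1600 ≤ B ^ 2 * (g : ℝ) ^ 2 * m *
      (1 / 3 - m ^ 3 / ((n ^ 4 : ℕ) : ℝ)) := by
    have h1 : B ^ 2 * (g : ℝ) ^ 2 * m = x ^ 2 * m := by rw [hx]; ring
    rw [h1]
    have h2 : m ^ 2 ≤ 4 * x ^ 2 := by nlinarith
    have h3 : (n : ℝ) ^ 3 ≤ 125 * m ^ 3 := by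
      have := pow_le_pow_left₀ (by positivity) hm5' 3
      nlinarith
    have h4 : m ^ 3 ≤ 4 * (x ^ 2 * m) := by nlinarith [mul_le_mul_of_nonneg_right h2 hm0.le]
    have h5 : x ^ 2 * m * (26 / 81) ≤ x ^ 2 * m * (1 / 3 - m ^ 3 / ((n ^ 4 : ℕ) : ℝ)) :=
      mul_le_mul_of_nonneg_left h81 (by positivity)
    nlinarith
  -- right side
  have hlog : Real.log 2 + Real.log 3 ≤ 2 := by
    rw [← Real.log_mul (by norm_num) (by norm_num), Real.log_le_iff_le_exp (by norm_num)]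
    have h4 := Real.exp_one_gt_d9
    have h5 : Real.exp 2 = Real.exp 1 * Real.exp 1 := by rw [← Real.exp_add]; norm_num
    rw [h5]
    nlinarith
  have hrhs : g * (2 * B ^ 2 * (Real.log 2 + Real.log 3) + P * q * (2 * B * L + r)) ≤
      (n : ℝ) ^ 2 / g + P * q * (n * L + g * r) := by
    have h1 : g * (2 * B ^ 2 * (Real.log 2 + Real.log 3) + P * q * (2 * B * L + r)) =
        2 * x ^ 2 * (Real.log 2 + Real.log 3) / g + P * q * (2 * x * L + g * r) := by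
      rw [hx]
      field_simp
    rw [h1]
    have h2 : 2 * x ^ 2 * (Real.log 2 + Real.log 3) ≤ (n : ℝ) ^ 2 := by
      have h3 : x ^ 2 ≤ m ^ 2 := pow_le_pow_left₀ hx0 hx1' 2
      have h4 : (3 * m) ^ 2 ≤ (n : ℝ) ^ 2 := pow_le_pow_left₀ (by positivity) hm3' 2
      have h5 : 2 * x ^ 2 * (Real.log 2 + Real.log 3) ≤ 2 * x ^ 2 * 2 :=
        mul_le_mul_of_nonneg_left hlog (by positivity)
      nlinarith
    have h3 : 2 * x ^ 2 * (Real.log 2 + Real.log 3) / g ≤ (n : ℝ) ^ 2 / g :=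
      div_le_div_of_nonneg_right h2 (by linarith)
    have h4 : 2 * x * L ≤ n * L := mul_le_mul_of_nonneg_right (by linarith) hL
    have h5 : (P : ℝ) * q * (2 * x * L + g * r) ≤ P * q * (n * L + g * r) :=
      mul_le_mul_of_nonneg_left (by linarith) hPq
    linarith
  have h0 : 0 ≤ (n : ℝ) ^ 2 / g + P * q * (n * L + g * r) := by positivity
  have hfin := (hlhs.trans h).trans hrhs
  linarith

theorem segLower : SegLower := by
  intro n g P q r R S _ hn hg hgn hP M hM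
  have hn0 : n ≠ 0 := by omega
  have : NeZero g := ⟨by omega⟩
  have : NeZero (n ^ 4) := ⟨pow_ne_zero 4 hn0⟩
  have : Nonempty S := ⟨M.init fun _ => false⟩
  have hL : 0 ≤ Real.log (P * (Fintype.card S : ℝ) ^ 2) := by
    refine Real.log_nonneg ?_
    have hS1 : (1 : ℝ) ≤ Fintype.card S := by exact_mod_cast Fintype.card_pos (α := S)
    have hP1 : (1 : ℝ) ≤ P := by exact_mod_cast hP
    nlinarith [one_le_pow₀ hS1 (n := 2)]
  exact seg_numeric n g P q r _ hn hg hgn hL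
    (main_ineq (Q := n ^ 4) hn (Nat.pow_le_pow_right (by omega) (by norm_num)) M P hP hM)

end Pool.Agent.Helper5.HB
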