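import Pool.Agent.Helper5.HB.Statement
import Pool.Agent.Helper5.HA.HeadsRed

/-!
# Multihead machines are segmented machines
-/

set_option autoImplicit false

namespace Pool.Agent.Helper5.HB

open Pool.Agent.Helper22.ETModel Pool.Agent.Helper5.HA

/-! ### Runs from a given configuration -/

/-- `m` steps from time `t0` on. -/
private def hbSteps {S Γ : Type} {k R : ℕ} (M : Heads S Γ k R) (τ : ℕ → Γ) (ρ : Fin R → Bool)
    (t0 : ℕ) (c : S × (Fin k → ℕ)) : ℕ → S × (Fin k → ℕ)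
  | 0 => c
  | m + 1 =>
    ((M.next ρ (t0 + m) (hbSteps M τ ρ t0 c m).1 (hbSteps M τ ρ t0 c m).2
        fun i => τ ((hbSteps M τ ρ t0 c m).2 i)).1,
      fun i => move ((hbSteps M τ ρ t0 c m).2 i)
        ((M.next ρ (t0 + m) (hbSteps M τ ρ t0 c m).1 (hbSteps M τ ρ t0 c m).2
          fun i => τ ((hbSteps M τ ρ t0 c m).2 i)).2 i))

private theorem hbSteps_run {S Γ : Type} {k R : ℕ} (M : Heads S Γ k R) (τ : ℕ → Γ)
    (ρ : Fin R → Bool) (t0 m : ℕ) : hbSteps M τ ρ t0 (M.run τ ρ t0) m = M.run τ ρ (t0 + m) := by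
  induction m with
  | zero => rfl
  | succ m ih =>
    rw [hbSteps, ih, ← add_assoc, Heads.run]

private theorem hb_move_le (p : ℕ) (d : Fin 3) : move p d ≤ p + 1 ∧ p ≤ move p d + 1 := by
  unfold move
  split_ifs <;> omega

private theorem hbRun_le {S Γ : Type} {k R : ℕ} (M : Heads S Γ k R) (τ : ℕ → Γ)
    (ρ : Fin R → Bool) (t : ℕ) (i : Fin k) : (M.run τ ρ t).2 i ≤ t := by
  induction t with
  | zero => simp [Heads.run]
  | succ t ih =>
    rw [Heads.run]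
    refine (hb_move_le _ _).1.trans ?_
    omega

private theorem hbSteps_congr {S Γ : Type} {k R : ℕ} (M : Heads S Γ k R) (τ τ' : ℕ → Γ)
    (ρ : Fin R → Bool) (t0 : ℕ) (c : S × (Fin k → ℕ)) (H : ℕ)
    (h : ∀ i x, c.2 i ≤ x + (H - 1) → x ≤ c.2 i + (H - 1) → τ x = τ' x) :
    ∀ m ≤ H, hbSteps M τ ρ t0 c m = hbSteps M τ' ρ t0 c m ∧
      ∀ i, (hbSteps M τ ρ t0 c m).2 i ≤ c.2 i + m ∧ c.2 i ≤ (hbSteps M τ ρ t0 c m).2 i + m := by
  intro m
  induction m with
  | zero => intro _; exact ⟨rfl, fun i => ⟨le_rfl, le_rfl⟩⟩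
  | succ m ih =>
    intro hm
    obtain ⟨ih1, ih2⟩ := ih (by omega)
    have h1 : (fun i => τ ((hbSteps M τ ρ t0 c m).2 i)) =
        fun i => τ' ((hbSteps M τ ρ t0 c m).2 i) := by
      funext i
      obtain ⟨a1, a2⟩ := ih2 i
      exact h i _ (by omega) (by omega)
    constructor
    · rw [hbSteps, hbSteps, ← ih1, h1]
    · intro i
      rw [hbSteps]
      obtain ⟨a1, a2⟩ := ih2 i
      dsimp only
      obtain ⟨b1, b2⟩ := hb_move_le ((hbSteps M τ ρ t0 c m).2 i)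
        ((M.next ρ (t0 + m) (hbSteps M τ ρ t0 c m).1 (hbSteps M τ ρ t0 c m).2
          fun i => τ ((hbSteps M τ ρ t0 c m).2 i)).2 i)
      constructor <;> omega

/-! ### The simulation -/

/-- The cell with number `b`. -/
private def hbCell (n : ℕ) (hn : 0 < n) (b : ℕ) : Fin n × Fin n :=
  (⟨b / n % n, Nat.mod_lt _ hn⟩, ⟨b % n, Nat.mod_lt _ hn⟩)

/-- The cells in the windows of the heads. -/
private def hbCells (n ℓ k g H : ℕ) (hn : 0 < n) (pos : Fin k → ℕ) : Finset (Fin n × Fin n) :=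
  ((Finset.univ : Finset (Fin k)) ×ˢ Finset.range (g * n + 2)).image fun c =>
    hbCell n hn ((pos c.1 - (H - 1)) / ℓ + c.2)

private theorem hbCells_card (n ℓ k g H : ℕ) (hn : 0 < n) (pos : Fin k → ℕ) :
    (hbCells n ℓ k g H hn pos).card ≤ k * (g * n + 2) := by
  refine Finset.card_image_le.trans ?_
  rw [Finset.card_product, Finset.card_univ, Fintype.card_fin, Finset.card_range]

/-- The blocks in the windows of the heads. -/
private def hbRows (n ℓ k g H : ℕ) (pos : Fin k → ℕ) : Finset ℕ :=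
  ((Finset.univ : Finset (Fin k × Bool))).image fun c =>
    if c.2 then (pos c.1 - (H - 1)) / (g * (n * ℓ)) else (pos c.1 + (H - 1)) / (g * (n * ℓ))

private theorem hbRows_card (n ℓ k g H : ℕ) (pos : Fin k → ℕ) :
    (hbRows n ℓ k g H pos).card ≤ 2 * k := by
  refine Finset.card_image_le.trans ?_
  rw [Finset.card_univ, Fintype.card_prod, Fintype.card_fin, Fintype.card_bool, mul_comm]

/-- The instance that the segmented machine sees. -/
private def hbInst {n : ℕ} (v : Wts n) : Inst n where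
  flag a b := decide (part n a ≠ part n b)
  wt := v

/-- Positions cut off at `T`. -/
private def hbCut {S : Type} {k : ℕ} (T : ℕ) (c : S × (Fin k → ℕ)) : S × (Fin k → Fin (T + 1)) :=
  (c.1, fun i => ⟨min (c.2 i) T, by omega⟩)

private def hbVal {S : Type} {k T : ℕ} (s : S × (Fin k → Fin (T + 1))) : S × (Fin k → ℕ) :=
  (s.1, fun i => (s.2 i : ℕ))

/-- The segmented machine. -/
private def hbM {S Γ : Type} {k R : ℕ} (n ℓ T g H : ℕ) (hn : 0 < n)
    (enc : Bool → ℤ → ℕ → Γ) (blank : Γ) (M : Heads S Γ k R) :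
    Seg n (S × (Fin k → Fin (T + 1))) g (2 * k) (k * (g * n + 2)) R where
  init ρ := hbCut T (M.init ρ, fun _ => 0)
  opn _ _ s := hbRows n ℓ k g H (hbVal s).2
  card_opn _ _ _ := hbRows_card n ℓ k g H _
  prb _ _ s := hbCells n ℓ k g H hn (hbVal s).2
  card_prb _ _ _ := hbCells_card n ℓ k g H hn _
  act ρ p s v := hbCut T (hbSteps M (tape (ℓ := ℓ) enc blank (hbInst v)) ρ
    (min (p * H) T) (hbVal s) (min H (T - p * H)))
  out ρ s := M.out ρ s.1

private theorem hb_tape {n ℓ k : ℕ} {Γ : Type} (enc : Bool → ℤ → ℕ → Γ) (blank : Γ) (hn : 0 < n)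
    (hℓ : 1 ≤ ℓ) (I : Inst n) (hI : Thirds I) (g H : ℕ) (hg : 1 ≤ g) (hH : 2 * H ≤ g * (n * ℓ))
    (hH1 : 1 ≤ H) (pos : Fin k → ℕ) (i : Fin k) (x : ℕ) (h1 : pos i ≤ x + (H - 1))
    (h2 : x ≤ pos i + (H - 1)) :
    tape (ℓ := ℓ) enc blank I x = tape (ℓ := ℓ) enc blank
      (hbInst (see g (hbRows n ℓ k g H pos) (hbCells n ℓ k g H hn pos) I.wt)) x := by
  unfold tape
  by_cases h : x / (n * ℓ) < n ∧ x / ℓ % n < n
  · rw [dif_pos h, dif_pos h]
    by_cases hlt : x / (n * ℓ) < x / ℓ % n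
    · rw [if_pos hlt, if_pos hlt]
      have hflag : I.flag ⟨x / (n * ℓ), h.1⟩ ⟨x / ℓ % n, h.2⟩ =
          decide (part n ⟨x / (n * ℓ), h.1⟩ ≠ part n ⟨x / ℓ % n, h.2⟩) := by
        rw [Bool.eq_iff_iff, decide_eq_true_eq]
        exact hI _ _
      have hnl : 0 < n * ℓ := Nat.mul_pos hn hℓ
      have hgnl : 0 < g * (n * ℓ) := Nat.mul_pos hg hnl
      have hrow : x / (n * ℓ) / g ∈ hbRows n ℓ k g H pos := by
        unfold hbRows
        rw [Finset.mem_image, Nat.div_div_eq_div_mul, mul_comm (n * ℓ) g]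
        have a1 : (pos i - (H - 1)) / (g * (n * ℓ)) ≤ x / (g * (n * ℓ)) :=
          Nat.div_le_div_right (by omega)
        have a2 : x / (g * (n * ℓ)) ≤ (pos i + (H - 1)) / (g * (n * ℓ)) :=
          Nat.div_le_div_right (by omega)
        have a3 : (pos i + (H - 1)) / (g * (n * ℓ)) ≤ (pos i - (H - 1)) / (g * (n * ℓ)) + 1 := by
          rw [← Nat.add_div_right _ hgnl]
          exact Nat.div_le_div_right (by omega)
        rcases Nat.eq_or_lt_of_le a1 with a4 | a4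
        · refine ⟨(i, true), Finset.mem_univ _, ?_⟩
          rw [if_pos rfl]
          exact a4
        · refine ⟨(i, false), Finset.mem_univ _, ?_⟩
          rw [if_neg (by simp)]
          dsimp only
          omega
      have hcell : ((⟨x / (n * ℓ), h.1⟩, ⟨x / ℓ % n, h.2⟩) : Fin n × Fin n) ∈
          hbCells n ℓ k g H hn pos := by
        unfold hbCells
        rw [Finset.mem_image]
        have a1 : (pos i - (H - 1)) / ℓ ≤ x / ℓ := Nat.div_le_div_right (by omega)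
        have a2 : x / ℓ ≤ (pos i - (H - 1)) / ℓ + g * n := by
          have a3 : x / ℓ ≤ (pos i - (H - 1) + g * n * ℓ) / ℓ := by
            refine Nat.div_le_div_right ?_
            rw [mul_assoc g n ℓ]
            omega
          rwa [Nat.add_mul_div_right _ _ hℓ] at a3
        refine ⟨(i, x / ℓ - (pos i - (H - 1)) / ℓ), ?_, ?_⟩
        · rw [Finset.mem_product]
          exact ⟨Finset.mem_univ _, Finset.mem_range.2 (by dsimp only; omega)⟩
        · dsimp only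
          rw [show (pos i - (H - 1)) / ℓ + (x / ℓ - (pos i - (H - 1)) / ℓ) = x / ℓ by omega]
          unfold hbCell
          have a5 : x / ℓ / n = x / (n * ℓ) := by rw [Nat.div_div_eq_div_mul, mul_comm ℓ n]
          apply Prod.ext
          · apply Fin.ext
            dsimp only
            rw [a5, Nat.mod_eq_of_lt h.1]
          · rfl
      have hwt : I.wt ⟨x / (n * ℓ), h.1⟩ ⟨x / ℓ % n, h.2⟩ =
          (hbInst (see g (hbRows n ℓ k g H pos) (hbCells n ℓ k g H hn pos) I.wt)).wt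
            ⟨x / (n * ℓ), h.1⟩ ⟨x / ℓ % n, h.2⟩ := by
        unfold hbInst
        dsimp only
        unfold see
        by_cases hA : InA n ⟨x / (n * ℓ), h.1⟩ ⟨x / ℓ % n, h.2⟩
        · rw [if_pos hA, if_pos hrow]
        · rw [if_neg hA, if_pos hcell]
          unfold hide
          rw [if_neg]
          rintro (hB | hB)
          · exact hA hB
          · obtain ⟨b1, b2⟩ := hB
            unfold part at b1 b2
            dsimp only at b1 b2
            split_ifs at b1 b2 <;> omega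
      rw [hflag, hwt]
      rfl
    · rw [if_neg hlt, if_neg hlt]
  · rw [dif_neg h, dif_neg h]

/-- The simulation: a phase consists of `g * (n * ℓ) / 2` steps. -/
theorem heads_to_seg (n ℓ k R T g : ℕ) (S Γ : Type) (enc : Bool → ℤ → ℕ → Γ) (blank : Γ)
    (hn : 3 ≤ n) (hℓ : 1 ≤ ℓ) (hg : 1 ≤ g) (M : Heads S Γ k R) (hM : M.Decides n ℓ enc blank T) :
    ∃ M' : Seg n (S × (Fin k → Fin (T + 1))) g (2 * k) (k * (g * n + 2)) R,
      M'.Decides (T / (g * (n * ℓ) / 2) + 1) := by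
  have hn0 : 0 < n := by omega
  have hnl : 3 ≤ n * ℓ := le_trans hn (Nat.le_mul_of_pos_right n hℓ)
  have hgnl : 3 ≤ g * (n * ℓ) := le_trans hnl (Nat.le_mul_of_pos_left _ hg)
  set H := g * (n * ℓ) / 2 with hHdef
  have hH1 : 1 ≤ H := by omega
  have hH2 : 2 * H ≤ g * (n * ℓ) := by omega
  refine ⟨hbM n ℓ T g H hn0 enc blank M, ?_⟩
  intro I hV hI
  have hrun : ∀ ρ p, (hbM n ℓ T g H hn0 enc blank M).run I.wt ρ p =
      hbCut T (M.run (tape (ℓ := ℓ) enc blank I) ρ (min (p * H) T)) := by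
    intro ρ p
    induction p with
    | zero =>
      rw [zero_mul, Nat.zero_min]
      rfl
    | succ p ih =>
      have hval : hbVal (hbCut T (M.run (tape (ℓ := ℓ) enc blank I) ρ (min (p * H) T))) =
          M.run (tape (ℓ := ℓ) enc blank I) ρ (min (p * H) T) := by
        unfold hbVal hbCut
        apply Prod.ext
        · rfl
        · funext i
          dsimp only
          exact min_eq_left ((hbRun_le M _ ρ _ i).trans (min_le_right _ _))
      rw [Seg.run, ih]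
      unfold Seg.step
      have hact : ∀ s v, (hbM n ℓ T g H hn0 enc blank M).act ρ p s v =
          hbCut T (hbSteps M (tape (ℓ := ℓ) enc blank (hbInst v)) ρ
            (min (p * H) T) (hbVal s) (min H (T - p * H))) := fun _ _ => rfl
      have hopn : ∀ s, (hbM n ℓ T g H hn0 enc blank M).opn ρ p s =
          hbRows n ℓ k g H (hbVal s).2 := fun _ => rfl
      have hprb : ∀ s, (hbM n ℓ T g H hn0 enc blank M).prb ρ p s =
          hbCells n ℓ k g H hn0 (hbVal s).2 := fun _ => rfl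
      rw [hact, hopn, hprb, hval]
      have hcongr := (hbSteps_congr M (tape (ℓ := ℓ) enc blank I) _ ρ (min (p * H) T)
        (M.run (tape (ℓ := ℓ) enc blank I) ρ (min (p * H) T)) H
        (fun i x h1 h2 => hb_tape (ℓ := ℓ) enc blank hn0 hℓ I hI g H hg hH2 hH1
          (M.run (tape (ℓ := ℓ) enc blank I) ρ (min (p * H) T)).2 i x h1 h2)
        (min H (T - p * H)) (min_le_left _ _)).1
      rw [← hcongr, hbSteps_run]
      have ht : min (p * H) T + min H (T - p * H) = min ((p + 1) * H) T := by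
        have e : (p + 1) * H = p * H + H := by ring
        rw [e]
        omega
      rw [ht]
  have hP : min ((T / H + 1) * H) T = T := by
    apply min_eq_right
    have := Nat.lt_div_mul_add (a := T) (b := H) (by omega)
    have e : (T / H + 1) * H = T / H * H + H := by ring
    omega
  have hout : ∀ ρ, (hbM n ℓ T g H hn0 enc blank M).out ρ
      ((hbM n ℓ T g H hn0 enc blank M).run I.wt ρ (T / H + 1)) =
      M.out ρ (M.run (tape (ℓ := ℓ) enc blank I) ρ T).1 := by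
    intro ρ
    rw [hrun, hP]
    rfl
  simp only [hout]
  exact hM I hV hI

/-- The tradeoff for multihead machines. -/
theorem headsTradeoff (h : SegLower) : HeadsTradeoff := by
  intro n ℓ k R T S Γ _ enc blank hn hℓ hk hT M hM
  classical
  have hS : Nonempty S := ⟨M.init fun _ => true⟩
  have hnl : 3 ≤ n * ℓ := le_trans hn (Nat.le_mul_of_pos_right n hℓ)
  have hnR : (3 : ℝ) ≤ n := by exact_mod_cast hn
  have hℓR : (1 : ℝ) ≤ ℓ := by exact_mod_cast hℓ
  have hkR : (1 : ℝ) ≤ k := by exact_mod_cast hk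
  have hnlR : (3 : ℝ) ≤ (n : ℝ) * ℓ := by exact_mod_cast hnl
  have hTR : (n : ℝ) ^ 2 * ℓ ≤ T := by exact_mod_cast hT
  have hT0 : (0 : ℝ) ≤ T := Nat.cast_nonneg T
  have hcS : (1 : ℝ) ≤ Fintype.card S := by
    exact_mod_cast Fintype.card_pos
  set a := Real.logb 2 (Fintype.card S) with ha
  set b := Real.logb 2 ((n : ℝ) * ℓ) with hb
  have ha0 : 0 ≤ a := Real.logb_nonneg (by norm_num) hcS
  have hb1 : 1 ≤ b := by
    rw [hb, Real.le_logb_iff_rpow_le (by norm_num) (by linarith)]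
    rw [Real.rpow_one]
    linarith
  have hkb : (k : ℝ) ≤ k * b := by nlinarith
  set σ := a + k * b with hσ
  have hσk : (k : ℝ) ≤ σ := by linarith
  have hσ1 : 1 ≤ σ := by linarith
  have hk3 : (1 : ℝ) ≤ (k : ℝ) ^ 3 * σ :=
    one_le_mul_of_one_le_of_one_le (one_le_pow₀ hkR) hσ1
  rcases le_or_gt ((ℓ : ℝ) * (n : ℝ) ^ 3) T with hbig | hsmall
  · have h1 : ((ℓ : ℝ) * (n : ℝ) ^ 3) ^ 2 ≤ (T : ℝ) ^ 2 :=
      pow_le_pow_left₀ (by positivity) hbig 2
    have h2 : (0 : ℝ) ≤ (T : ℝ) ^ 2 := by positivity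
    have h3 : (1 : ℝ) ≤ 2 ^ 40 * ((k : ℝ) ^ 3 * σ) := by linarith
    calc (ℓ : ℝ) ^ 2 * (n : ℝ) ^ 6 = ((ℓ : ℝ) * (n : ℝ) ^ 3) ^ 2 := by ring
      _ ≤ (T : ℝ) ^ 2 := h1
      _ ≤ (T : ℝ) ^ 2 * (2 ^ 40 * ((k : ℝ) ^ 3 * σ)) := le_mul_of_one_le_right h2 h3
      _ = _ := by ring
  -- the size of the blocks
  set u := Real.sqrt (σ / k) with hu
  have hk0 : (0 : ℝ) < k := by linarith
  have hu2 : k * u ^ 2 = σ := by
    rw [hu, Real.sq_sqrt (div_nonneg (by linarith) hk0.le)]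
    field_simp
  have hu1 : 1 ≤ u := by
    rw [hu]
    apply Real.one_le_sqrt.mpr
    rw [le_div_iff₀ hk0]
    linarith
  set g := ⌊u⌋₊ with hg
  have hg1 : 1 ≤ g := by
    rw [hg]
    exact Nat.one_le_floor_iff _ |>.mpr hu1
  have hgu : (g : ℝ) ≤ u := Nat.floor_le (by linarith)
  have hug : u < g + 1 := Nat.lt_floor_add_one u
  have hgR : (1 : ℝ) ≤ g := by exact_mod_cast hg1
  rcases Nat.lt_or_ge (n / 3) g with hgn | hgn
  · -- much memory
    have h1 : (n : ℝ) < 3 * g := by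
      have : n < 3 * g := by omega
      exact_mod_cast this
    have h2 : (n : ℝ) ^ 2 ≤ 9 * u ^ 2 := by nlinarith
    have h3 : (n : ℝ) ^ 2 ≤ 9 * (k * u ^ 2) := by nlinarith [sq_nonneg u]
    rw [hu2] at h3
    have h4 : ((n : ℝ) ^ 2 * ℓ) ^ 2 ≤ (T : ℝ) ^ 2 := pow_le_pow_left₀ (by positivity) hTR 2
    have h5 : (1 : ℝ) ≤ (k : ℝ) ^ 3 := one_le_pow₀ hkR
    calc (ℓ : ℝ) ^ 2 * (n : ℝ) ^ 6 = ((n : ℝ) ^ 2 * ℓ) ^ 2 * (n : ℝ) ^ 2 := by ring
      _ ≤ (T : ℝ) ^ 2 * (9 * σ) := mul_le_mul h4 h3 (by positivity) (by positivity)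
      _ ≤ (T : ℝ) ^ 2 * (9 * σ) * (k : ℝ) ^ 3 := le_mul_of_one_le_right (by positivity) h5
      _ ≤ 2 ^ 40 * (k : ℝ) ^ 3 * (T : ℝ) ^ 2 * σ := by
        have h6 : 0 ≤ (k : ℝ) ^ 3 * (T : ℝ) ^ 2 * σ := by positivity
        nlinarith
  obtain ⟨M', hM'⟩ := heads_to_seg n ℓ k R T g S Γ enc blank hn hℓ hg1 M hM
  set P := T / (g * (n * ℓ) / 2) + 1 with hPdef
  have h0 := h n g P (2 * k) (k * (g * n + 2)) R (S × (Fin k → Fin (T + 1))) hn hg1 hgn
    (Nat.succ_le_succ (Nat.zero_le _)) M' hM'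
  -- number of phases
  have hgnl : 3 ≤ g * (n * ℓ) := le_trans hnl (Nat.le_mul_of_pos_left _ hg1)
  have hTg : g * (n * ℓ) ≤ T := by
    have h1 : g ≤ n := hgn.trans (Nat.div_le_self n 3)
    calc g * (n * ℓ) ≤ n * (n * ℓ) := Nat.mul_le_mul_right _ h1
      _ = n ^ 2 * ℓ := by ring
      _ ≤ T := hT
  have hPT : P ≤ T + 1 := Nat.succ_le_succ (Nat.div_le_self _ _)
  have hP : (P : ℝ) * ((g : ℝ) * (n * ℓ)) ≤ 4 * T := by
    have h1 : g * (n * ℓ) ≤ 3 * (g * (n * ℓ) / 2) := by omega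
    have h2 : T / (g * (n * ℓ) / 2) * (g * (n * ℓ) / 2) ≤ T := Nat.div_mul_le_self _ _
    have h3 : T / (g * (n * ℓ) / 2) * (g * (n * ℓ)) ≤ 3 * T := by
      calc T / (g * (n * ℓ) / 2) * (g * (n * ℓ)) ≤
            T / (g * (n * ℓ) / 2) * (3 * (g * (n * ℓ) / 2)) := Nat.mul_le_mul_left _ h1
        _ = 3 * (T / (g * (n * ℓ) / 2) * (g * (n * ℓ) / 2)) := by ring
        _ ≤ 3 * T := Nat.mul_le_mul_left _ h2
    have h4 : P * (g * (n * ℓ)) ≤ 4 * T := by
      rw [hPdef, add_mul, one_mul]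
      omega
    exact_mod_cast h4
  have hP1 : (1 : ℝ) ≤ P := by
    have : 1 ≤ P := Nat.succ_le_succ (Nat.zero_le _)
    exact_mod_cast this
  -- logarithms
  have hlogT : Real.logb 2 ((T : ℝ) + 1) ≤ 4 * b := by
    have h3 : (T : ℝ) + 1 ≤ ((n : ℝ) * ℓ) ^ 4 := by
      have h4 : (ℓ : ℝ) * (n : ℝ) ^ 3 ≤ ((n : ℝ) * ℓ) ^ 3 := by
        have h5 : (ℓ : ℝ) ≤ (ℓ : ℝ) ^ 3 := by
          nlinarith [mul_nonneg (by linarith : (0 : ℝ) ≤ ℓ)
            (by nlinarith : (0 : ℝ) ≤ (ℓ : ℝ) ^ 2 - 1)]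
        have h6 : (0 : ℝ) ≤ (n : ℝ) ^ 3 := by positivity
        calc (ℓ : ℝ) * (n : ℝ) ^ 3 ≤ (ℓ : ℝ) ^ 3 * (n : ℝ) ^ 3 :=
              mul_le_mul_of_nonneg_right h5 h6
          _ = ((n : ℝ) * ℓ) ^ 3 := by ring
      have h7 : (1 : ℝ) ≤ ((n : ℝ) * ℓ) ^ 3 := one_le_pow₀ (by linarith)
      have h8 : ((n : ℝ) * ℓ) ^ 4 = ((n : ℝ) * ℓ) ^ 3 * ((n : ℝ) * ℓ) := by ring
      rw [h8]
      nlinarith
    have h9 : Real.logb 2 (((n : ℝ) * ℓ) ^ 4) = 4 * b := by
      rw [Real.logb_pow, ← hb]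
      norm_num
    rw [← h9]
    exact Real.logb_le_logb_of_le (by norm_num) (by positivity) h3
  have hcard : (Fintype.card (S × (Fin k → Fin (T + 1))) : ℝ) =
      (Fintype.card S : ℝ) * ((T : ℝ) + 1) ^ k := by
    rw [Fintype.card_prod, Fintype.card_fun, Fintype.card_fin, Fintype.card_fin]
    push_cast
    ring
  have hcard1 : (1 : ℝ) ≤ Fintype.card (S × (Fin k → Fin (T + 1))) := by
    rw [hcard]
    exact one_le_mul_of_one_le_of_one_le hcS (one_le_pow₀ (by linarith))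
  have hlog2 : Real.logb 2 (P * (Fintype.card (S × (Fin k → Fin (T + 1))) : ℝ) ^ 2) ≤
      12 * σ := by
    have h1 : Real.logb 2 P ≤ 4 * b := by
      refine le_trans (Real.logb_le_logb_of_le (by norm_num) (by linarith) ?_) hlogT
      exact_mod_cast hPT
    have h2 : Real.logb 2 (Fintype.card (S × (Fin k → Fin (T + 1)))) ≤ a + k * (4 * b) := by
      rw [hcard, Real.logb_mul (by linarith) (by positivity), Real.logb_pow]
      have h3 : (k : ℝ) * Real.logb 2 ((T : ℝ) + 1) ≤ k * (4 * b) :=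
        mul_le_mul_of_nonneg_left hlogT (by linarith)
      linarith
    rw [Real.logb_mul (by linarith) (by positivity), Real.logb_pow]
    have h4 : b ≤ k * b := by nlinarith
    push_cast
    nlinarith
  have hln : Real.log (P * (Fintype.card (S × (Fin k → Fin (T + 1))) : ℝ) ^ 2) ≤ 12 * σ := by
    refine le_trans ?_ hlog2
    have h1 : (1 : ℝ) ≤ P * (Fintype.card (S × (Fin k → Fin (T + 1))) : ℝ) ^ 2 :=
      one_le_mul_of_one_le_of_one_le hP1 (one_le_pow₀ hcard1)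
    have h2 : 0 ≤ Real.log (P * (Fintype.card (S × (Fin k → Fin (T + 1))) : ℝ) ^ 2) :=
      Real.log_nonneg h1
    rw [Real.logb, le_div_iff₀ (Real.log_pos (by norm_num))]
    have h3 : Real.log 2 ≤ 1 := by
      have := Real.log_two_lt_d9
      linarith
    nlinarith
  -- the sum
  have hsum : (n : ℝ) * Real.log (P * (Fintype.card (S × (Fin k → Fin (T + 1))) : ℝ) ^ 2) +
      g * ((k * (g * n + 2) : ℕ) : ℝ) ≤ 14 * (n * σ) := by
    have h1 : (n : ℝ) * Real.log (P * (Fintype.card (S × (Fin k → Fin (T + 1))) : ℝ) ^ 2) ≤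
        n * (12 * σ) := mul_le_mul_of_nonneg_left hln (by linarith)
    have h2 : (g : ℝ) * ((k * (g * n + 2) : ℕ) : ℝ) ≤ 2 * n * (k * u ^ 2) := by
      push_cast
      have h3 : (g : ℝ) * n + 2 ≤ 2 * (g * n) := by nlinarith
      have h4 : (g : ℝ) ^ 2 ≤ u ^ 2 := pow_le_pow_left₀ (by linarith) hgu 2
      calc (g : ℝ) * (k * (g * n + 2)) ≤ g * (k * (2 * (g * n))) :=
            mul_le_mul_of_nonneg_left (mul_le_mul_of_nonneg_left h3 hk0.le) (by linarith)
        _ = 2 * n * (k * (g : ℝ) ^ 2) := by ring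
        _ ≤ 2 * n * (k * u ^ 2) := mul_le_mul_of_nonneg_left
            (mul_le_mul_of_nonneg_left h4 hk0.le) (by linarith)
    rw [hu2] at h2
    linarith
  have hgpos : (0 : ℝ) < g := by linarith
  have hY : (g : ℝ) * ℓ * (n : ℝ) ^ 3 ≤ 2 ^ 12 * 113 * (T * k * σ) := by
    have e : ((2 * k : ℕ) : ℝ) = 2 * (k : ℝ) := by push_cast; ring
    rw [e] at h0
    have h1 : (n : ℝ) ^ 3 ≤ 2 ^ 12 * ((n : ℝ) ^ 2 / g + P * (2 * k) * (14 * (n * σ))) := by
      refine h0.trans ?_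
      have h2 := mul_le_mul_of_nonneg_left hsum (by positivity : (0 : ℝ) ≤ P * (2 * k))
      linarith
    have h2 : (g : ℝ) * ℓ * (n : ℝ) ^ 3 ≤
        2 ^ 12 * ((n : ℝ) ^ 2 * ℓ + (P * (g * (n * ℓ))) * (28 * (k * σ))) := by
      have h3 := mul_le_mul_of_nonneg_left h1 (by positivity : (0 : ℝ) ≤ (g : ℝ) * ℓ)
      refine h3.trans (le_of_eq ?_)
      field_simp
      ring
    have h4 : (P * ((g : ℝ) * (n * ℓ))) * (28 * (k * σ)) ≤ 4 * T * (28 * (k * σ)) :=
      mul_le_mul_of_nonneg_right hP (by positivity)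
    have h5 : (1 : ℝ) ≤ k * σ := one_le_mul_of_one_le_of_one_le hkR hσ1
    have h6 : (n : ℝ) ^ 2 * ℓ ≤ T * (k * σ) := hTR.trans (le_mul_of_one_le_right hT0 h5)
    nlinarith
  have hσg : σ ≤ 4 * k * (g : ℝ) ^ 2 := by
    rw [← hu2]
    have h1 : u ≤ 2 * g := by linarith
    have h2 : u ^ 2 ≤ (2 * (g : ℝ)) ^ 2 := pow_le_pow_left₀ (by linarith) h1 2
    have h3 := mul_le_mul_of_nonneg_left h2 hk0.le
    linarith
  have hfin : (ℓ : ℝ) ^ 2 * (n : ℝ) ^ 6 * σ ≤
      (2 ^ 40 * (k : ℝ) ^ 3 * (T : ℝ) ^ 2 * σ) * σ := by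
    have h1 : ((g : ℝ) * ℓ * (n : ℝ) ^ 3) ^ 2 ≤ (2 ^ 12 * 113 * (T * k * σ)) ^ 2 :=
      pow_le_pow_left₀ (by positivity) hY 2
    calc (ℓ : ℝ) ^ 2 * (n : ℝ) ^ 6 * σ ≤ (ℓ : ℝ) ^ 2 * (n : ℝ) ^ 6 * (4 * k * (g : ℝ) ^ 2) :=
          mul_le_mul_of_nonneg_left hσg (by positivity)
      _ = 4 * k * ((g : ℝ) * ℓ * (n : ℝ) ^ 3) ^ 2 := by ring
      _ ≤ 4 * k * (2 ^ 12 * 113 * (T * k * σ)) ^ 2 := mul_le_mul_of_nonneg_left h1 (by positivity)
      _ = (2 ^ 26 * 12769) * ((k : ℝ) ^ 3 * (T : ℝ) ^ 2 * σ * σ) := by ring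
      _ ≤ 2 ^ 40 * ((k : ℝ) ^ 3 * (T : ℝ) ^ 2 * σ * σ) :=
          mul_le_mul_of_nonneg_right (by norm_num) (by positivity)
      _ = _ := by ring
  exact le_of_mul_le_mul_right hfin (by linarith)

end Pool.Agent.Helper5.HB
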