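import Pool.Agent.Helper5.HB.Statement

/-!
# Three heads

For every pair `(i, j)` the heads scan the rows `i` and `j` in parallel while the third head stays
at the entry `(i, j)`. The movement of the heads does not depend on the input; it is a walk that is
composed of straight walks.
-/

set_option autoImplicit false

namespace Pool.Agent.Helper5.HB

open Pool.Agent.Helper22.ETModel Pool.Agent.Helper5.HA

/-- A walk of three heads from `a` to `b` in time `T` that visits `V` before time `T`. -/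
def Walk (a b : Fin 3 → ℕ) (T : ℕ) (V : Set (Fin 3 → ℕ)) : Prop :=
  ∃ p : ℕ → Fin 3 → ℕ, p 0 = a ∧ p T = b ∧
    (∀ t i, p (t + 1) i ≤ p t i + 1 ∧ p t i ≤ p (t + 1) i + 1) ∧ ∀ v ∈ V, ∃ t < T, p t = v

theorem Walk.mono {a b : Fin 3 → ℕ} {T : ℕ} {V V' : Set (Fin 3 → ℕ)} (h : Walk a b T V)
    (hV : V' ⊆ V) : Walk a b T V' := by
  obtain ⟨p, h0, h1, h2, h3⟩ := h
  exact ⟨p, h0, h1, h2, fun v hv => h3 v (hV hv)⟩

theorem Walk.trans {a b c : Fin 3 → ℕ} {T T' : ℕ} {V V' : Set (Fin 3 → ℕ)} (h : Walk a b T V)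
    (h' : Walk b c T' V') : Walk a c (T + T') (V ∪ V') := by
  obtain ⟨p, h0, h1, h2, h3⟩ := h
  obtain ⟨p', h0', h1', h2', h3'⟩ := h'
  set P : ℕ → Fin 3 → ℕ := fun t => if t ≤ T then p t else p' (t - T) with hP
  have e1 : ∀ t, t ≤ T → P t = p t := fun t ht => by simp only [hP, if_pos ht]
  have e2 : ∀ t, P (T + t) = p' t := by
    intro t
    rcases Nat.eq_zero_or_pos t with h | h
    · subst h
      rw [Nat.add_zero, e1 T le_rfl, h1, h0']
    · simp only [hP]
      rw [if_neg (by omega), Nat.add_sub_cancel_left]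
  refine ⟨P, ?_, ?_, ?_, ?_⟩
  · rw [e1 0 (Nat.zero_le _), h0]
  · rw [e2, h1']
  · intro t i
    rcases Nat.lt_or_ge t T with ht | ht
    · rw [e1 t ht.le, e1 (t + 1) ht]
      exact h2 t i
    · obtain ⟨s, rfl⟩ := Nat.exists_eq_add_of_le ht
      rw [e2 s, show T + s + 1 = T + (s + 1) by ring, e2 (s + 1)]
      exact h2' s i
  · rintro v (hv | hv)
    · obtain ⟨t, ht, hvt⟩ := h3 v hv
      exact ⟨t, by omega, by rw [e1 t ht.le, hvt]⟩
    · obtain ⟨t, ht, hvt⟩ := h3' v hv
      exact ⟨T + t, by omega, by rw [e2, hvt]⟩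

theorem walk_refl (a : Fin 3 → ℕ) : Walk a a 0 ∅ :=
  ⟨fun _ => a, rfl, rfl, fun _ _ => ⟨Nat.le_succ _, Nat.le_succ _⟩, fun v hv => absurd hv (by simp)⟩

/-- A straight walk. -/
theorem straight (a b : Fin 3 → ℕ) (T : ℕ) (h : ∀ i, b i ≤ a i + T ∧ a i ≤ b i + T) :
    Walk a b T {v | ∃ t < T, ∀ i, v i = if a i ≤ b i then min (a i + t) (b i)
      else max (a i - t) (b i)} := by
  refine ⟨fun t i => if a i ≤ b i then min (a i + t) (b i) else max (a i - t) (b i),
    ?_, ?_, ?_, ?_⟩
  · funext i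
    by_cases hab : a i ≤ b i
    · simp only [if_pos hab]; omega
    · simp only [if_neg hab]; omega
  · funext i
    have := h i
    by_cases hab : a i ≤ b i
    · simp only [if_pos hab]; omega
    · simp only [if_neg hab]; omega
  · intro t i
    by_cases hab : a i ≤ b i
    · simp only [if_pos hab]; omega
    · simp only [if_neg hab]; omega
  · rintro v ⟨t, ht, hv⟩
    exact ⟨t, ht, by funext i; rw [hv i]⟩

/-- The positions of the heads for the triple `(i, j, k)`. -/
def trip (n i j k : ℕ) : Fin 3 → ℕ := ![i * n + k, j * n + k, i * n + j]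

theorem block_walk (n i j : ℕ) (hn : 1 ≤ n) :
    Walk ![i * n, j * n, i * n + j] ![i * n, (j + 1) * n, i * n + (j + 1)] (n + n)
      {v | ∃ k < n, v = trip n i j k} := by
  have h1 := straight ![i * n, j * n, i * n + j] ![i * n + (n - 1), j * n + (n - 1), i * n + j] n
    (by
      intro l
      fin_cases l
      · simp; omega
      · simp; omega
      · simp)
  have h2 := straight ![i * n + (n - 1), j * n + (n - 1), i * n + j]
    ![i * n, (j + 1) * n, i * n + (j + 1)] n
    (by
      intro l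
      have e : (j + 1) * n = j * n + n := by ring
      fin_cases l
      · simp; omega
      · simp only [e]; simp; omega
      · simp; omega)
  refine (h1.trans h2).mono ?_
  rintro v ⟨k, hk, rfl⟩
  left
  refine ⟨k, hk, ?_⟩
  intro l
  unfold trip
  fin_cases l
  · simp; omega
  · simp; omega
  · simp

theorem row_walk (n i : ℕ) (hn : 1 ≤ n) (J : ℕ) :
    Walk ![i * n, 0, i * n] ![i * n, J * n, i * n + J] ((n + n) * J)
      {v | ∃ j < J, ∃ k < n, v = trip n i j k} := by
  induction J with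
  | zero =>
    simp only [Nat.zero_mul, Nat.add_zero, Nat.mul_zero]
    refine (walk_refl _).mono ?_
    rintro v ⟨j, hj, _⟩
    omega
  | succ J ih =>
    have h := ih.trans (block_walk n i J hn)
    rw [show (n + n) * J + (n + n) = (n + n) * (J + 1) by ring] at h
    refine h.mono ?_
    rintro v ⟨j, hj, k, hk, rfl⟩
    rcases Nat.lt_succ_iff_lt_or_eq.1 hj with h1 | h1
    · exact Or.inl ⟨j, h1, k, hk, rfl⟩
    · subst h1
      exact Or.inr ⟨k, hk, rfl⟩

theorem full_walk (n : ℕ) (hn : 1 ≤ n) (m : ℕ) :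
    Walk ![0, 0, 0] ![m * n, 0, m * n] (3 * n ^ 2 * m)
      {v | ∃ i < m, ∃ j < n, ∃ k < n, v = trip n i j k} := by
  induction m with
  | zero =>
    simp only [Nat.zero_mul, Nat.mul_zero]
    refine (walk_refl _).mono ?_
    rintro v ⟨j, hj, _⟩
    omega
  | succ m ih =>
    have h1 := row_walk n m hn n
    have h2 := straight ![m * n, n * n, m * n + n] ![(m + 1) * n, 0, (m + 1) * n] (n * n) (by
      intro l
      have e : (m + 1) * n = m * n + n := by ring
      have e2 : n ≤ n * n := Nat.le_mul_of_pos_left n hn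
      fin_cases l
      · simp only [e]; simp; omega
      · simp
      · simp only [e]; simp)
    have h := (ih.trans h1).trans h2
    rw [show 3 * n ^ 2 * m + (n + n) * n + n * n = 3 * n ^ 2 * (m + 1) by ring] at h
    refine h.mono ?_
    rintro v ⟨i, hi, j, hj, k, hk, rfl⟩
    left
    rcases Nat.lt_succ_iff_lt_or_eq.1 hi with h3 | h3
    · exact Or.inl ⟨i, h3, j, hj, k, hk, rfl⟩
    · subst h3
      exact Or.inr ⟨j, hj, k, hk, rfl⟩

/-- The test of the machine: the heads are at the entries `(i, k)`, `(j, k)`, `(i, j)` of a zero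
triangle. -/
def Test (n : ℕ) (pos : Fin 3 → ℕ) (sym : Fin 3 → Option (Bool × ℤ)) : Prop :=
  pos 2 / n = pos 0 / n ∧ pos 2 % n = pos 1 / n ∧ pos 0 % n = pos 1 % n ∧
    ∃ w0 w1 w2 : ℤ, sym 0 = some (true, w0) ∧ sym 1 = some (true, w1) ∧ sym 2 = some (true, w2) ∧
      w0 + w1 + w2 = 0

/-- The direction from `x` to `y`. -/
def dir (x y : ℕ) : Fin 3 := if y < x then 0 else if y = x then 1 else 2

theorem move_dir (x y : ℕ) (h1 : y ≤ x + 1) (h2 : x ≤ y + 1) : move x (dir x y) = y := by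
  unfold move dir
  by_cases h3 : y < x
  · simp only [if_pos h3, if_true]; omega
  · by_cases h4 : y = x
    · simp [h4]
    · simp only [if_neg h3, if_neg h4]
      have e1 : (2 : Fin 3) ≠ 0 := by decide
      have e2 : (2 : Fin 3) ≠ 1 := by decide
      rw [if_neg e1, if_neg e2]
      omega

open Classical in
/-- The machine of a walk. -/
noncomputable def walkMachine (n : ℕ) (p : ℕ → Fin 3 → ℕ) :
    Heads Bool (Option (Bool × ℤ)) 3 0 where
  init _ := false
  next _ t s pos sym := (if Test n pos sym then true else s, fun i => dir (p t i) (p (t + 1) i))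
  out _ s := s

theorem walk_pos (n : ℕ) (p : ℕ → Fin 3 → ℕ) (h0 : p 0 = fun _ => 0)
    (hp : ∀ t i, p (t + 1) i ≤ p t i + 1 ∧ p t i ≤ p (t + 1) i + 1)
    (τ : ℕ → Option (Bool × ℤ)) (ρ : Fin 0 → Bool) (t : ℕ) :
    ((walkMachine n p).run τ ρ t).2 = p t := by
  induction t with
  | zero => exact h0.symm
  | succ t ih =>
    funext i
    show move (((walkMachine n p).run τ ρ t).2 i) (dir (p t i) (p (t + 1) i)) = p (t + 1) i
    rw [ih]
    exact move_dir _ _ (hp t i).1 (hp t i).2

theorem walk_state (n : ℕ) (p : ℕ → Fin 3 → ℕ) (h0 : p 0 = fun _ => 0)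
    (hp : ∀ t i, p (t + 1) i ≤ p t i + 1 ∧ p t i ≤ p (t + 1) i + 1)
    (τ : ℕ → Option (Bool × ℤ)) (ρ : Fin 0 → Bool) (t : ℕ) :
    ((walkMachine n p).run τ ρ t).1 = true ↔ ∃ t' < t, Test n (p t') fun i => τ (p t' i) := by
  induction t with
  | zero => simp [Heads.run, walkMachine]
  | succ t ih =>
    classical
    have key : ((walkMachine n p).run τ ρ (t + 1)).1 = true ↔
        Test n (p t) (fun i => τ (p t i)) ∨ ((walkMachine n p).run τ ρ t).1 = true := by
      have e : ((walkMachine n p).run τ ρ (t + 1)).1 =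
          if Test n ((walkMachine n p).run τ ρ t).2
            (fun i => τ (((walkMachine n p).run τ ρ t).2 i)) then true
          else ((walkMachine n p).run τ ρ t).1 := by
        show ((walkMachine n p).next ρ t _ _ _).1 = _
        simp only [walkMachine]
      rw [e, walk_pos n p h0 hp]
      by_cases h : Test n (p t) fun i => τ (p t i)
      · simp [h]
      · simp [h]
    rw [key, ih]
    constructor
    · rintro (h | ⟨t', ht', h⟩)
      · exact ⟨t, by omega, h⟩
      · exact ⟨t', by omega, h⟩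
    · rintro ⟨t', ht', h⟩
      rcases Nat.lt_succ_iff_lt_or_eq.1 ht' with h1 | h1
      · exact Or.inr ⟨t', h1, h⟩
      · subst h1
        exact Or.inl h

theorem tape_some {n : ℕ} (I : Inst n) (p : ℕ) (w : ℤ)
    (h : tape (ℓ := 1) (fun f w _ => some (f, w)) none I p = some (true, w)) :
    ∃ (h1 : p / n < n) (h2 : p % n < n), p / n < p % n ∧
      I.flag ⟨p / n, h1⟩ ⟨p % n, h2⟩ = true ∧ I.wt ⟨p / n, h1⟩ ⟨p % n, h2⟩ = w := by
  unfold tape at h
  simp only [Nat.mul_one, Nat.div_one] at h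
  by_cases h1 : p / n < n ∧ p % n < n
  · rw [dif_pos h1] at h
    by_cases h2 : p / n < p % n
    · rw [if_pos h2] at h
      simp only [Option.some.injEq, Prod.mk.injEq] at h
      exact ⟨h1.1, h1.2, h2, h.1, h.2⟩
    · rw [if_neg h2] at h
      exact absurd h (by simp)
  · rw [dif_neg h1] at h
    exact absurd h (by simp)

theorem tape_at {n : ℕ} (I : Inst n) (i j : Fin n) (hij : i < j) :
    tape (ℓ := 1) (fun f w _ => some (f, w)) none I ((i : ℕ) * n + j) =
      some (I.flag i j, I.wt i j) := by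
  have e1 : ((i : ℕ) * n + j) / n = i := by
    rw [Nat.add_comm, Nat.add_mul_div_right _ _ (by omega), Nat.div_eq_of_lt j.isLt, Nat.zero_add]
  have e2 : ((i : ℕ) * n + j) % n = j := by
    rw [Nat.add_comm, Nat.add_mul_mod_self_right, Nat.mod_eq_of_lt j.isLt]
  unfold tape
  simp only [Nat.mul_one, Nat.div_one]
  rw [dif_pos ⟨by rw [e1]; exact i.isLt, by rw [e2]; exact j.isLt⟩,
    if_pos (by rw [e1, e2]; exact hij)]
  simp only [e1, e2, Fin.eta]

theorem yes_of_test {n : ℕ} (I : Inst n) (pos : Fin 3 → ℕ)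
    (h : Test n pos fun i => tape (ℓ := 1) (fun f w _ => some (f, w)) none I (pos i)) : I.Yes := by
  obtain ⟨g1, g2, g3, w0, w1, w2, s0, s1, s2, hs⟩ := h
  obtain ⟨a1, a2, a3, a4, a5⟩ := tape_some I _ _ s0
  obtain ⟨b1, b2, b3, b4, b5⟩ := tape_some I _ _ s1
  obtain ⟨c1, c2, c3, c4, c5⟩ := tape_some I _ _ s2
  simp only [g1, g2] at c1 c2 c3 c4 c5
  simp only [g3] at a2 a3 a4 a5
  refine ⟨⟨pos 0 / n, a1⟩, ⟨pos 1 / n, b1⟩, ⟨pos 1 % n, b2⟩, ?_, ?_, ?_, c4, b4, a4, ?_⟩
  · intro h
    have := congrArg Fin.val h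
    simp only at this
    omega
  · intro h
    have := congrArg Fin.val h
    simp only at this
    omega
  · intro h
    have := congrArg Fin.val h
    simp only at this
    omega
  · rw [a5, b5, c5]
    linarith

theorem test_of_lt {n : ℕ} (I : Inst n) (i j k : Fin n) (hij : i < j) (hjk : j < k)
    (f1 : I.flag i j = true) (f2 : I.flag j k = true) (f3 : I.flag i k = true)
    (hs : I.wt i j + I.wt j k + I.wt i k = 0) :
    Test n (trip n i j k) fun l =>
      tape (ℓ := 1) (fun f w _ => some (f, w)) none I (trip n i j k l) := by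
  have d : ∀ a b : Fin n, ((a : ℕ) * n + b) / n = a := fun a b => by
    rw [Nat.add_comm, Nat.add_mul_div_right _ _ (by omega), Nat.div_eq_of_lt b.isLt, Nat.zero_add]
  have m : ∀ a b : Fin n, ((a : ℕ) * n + b) % n = b := fun a b => by
    rw [Nat.add_comm, Nat.add_mul_mod_self_right, Nat.mod_eq_of_lt b.isLt]
  have p0 : trip n i j k 0 = (i : ℕ) * n + k := rfl
  have p1 : trip n i j k 1 = (j : ℕ) * n + k := rfl
  have p2 : trip n i j k 2 = (i : ℕ) * n + j := rfl
  refine ⟨?_, ?_, ?_, I.wt i k, I.wt j k, I.wt i j, ?_, ?_, ?_, by linarith⟩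
  · rw [p0, p2, d, d]
  · rw [p1, p2, m, d]
  · rw [p0, p1, m, m]
  · simp only [p0]
    rw [tape_at I i k (hij.trans hjk), f3]
  · simp only [p1]
    rw [tape_at I j k hjk, f2]
  · simp only [p2]
    rw [tape_at I i j hij, f1]

/-- A zero triangle can be written in increasing order. -/
theorem sorted_of_yes {n : ℕ} (I : Inst n) (hI : I.Valid) (h : I.Yes) :
    ∃ i j k : Fin n, i < j ∧ j < k ∧ I.flag i j = true ∧ I.flag j k = true ∧
      I.flag i k = true ∧ I.wt i j + I.wt j k + I.wt i k = 0 := by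
  obtain ⟨i, j, k, hij, hjk, hik, f1, f2, f3, hs⟩ := h
  have F := hI.1
  have W := hI.2.2.1
  have f1' := (F j i).trans f1
  have f2' := (F k j).trans f2
  have f3' := (F k i).trans f3
  have w1 := W i j
  have w2 := W j k
  have w3 := W i k
  rcases lt_or_gt_of_ne hij with h1 | h1 <;> rcases lt_or_gt_of_ne hjk with h2 | h2 <;>
    rcases lt_or_gt_of_ne hik with h3 | h3
  · exact ⟨i, j, k, h1, h2, f1, f2, f3, hs⟩
  · exact absurd (h1.trans h2) (not_lt_of_gt h3)
  · exact ⟨i, k, j, h3, h2, f3, f2', f1, by linarith⟩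
  · exact ⟨k, i, j, h3, h1, f3', f1, f2', by linarith⟩
  · exact ⟨j, i, k, h1, h3, f1', f3, f2, by linarith⟩
  · exact ⟨j, k, i, h2, h3, f2, f3', f1', by linarith⟩
  · exact absurd (h2.trans h1) (not_lt_of_gt h3)
  · exact ⟨k, j, i, h2, h1, f2', f1', f3', by linarith⟩

theorem headsUpper : HeadsUpper := by
  intro n hn
  obtain ⟨p, h0, h1, h2, h3⟩ := full_walk n (by omega) n
  have h0' : p 0 = fun _ => 0 := by
    rw [h0]
    funext i
    fin_cases i <;> rfl
  refine ⟨walkMachine n p, 3 * n ^ 2 * n, ?_, ?_⟩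
  · have : 3 * n ^ 2 * n = 3 * n ^ 3 := by ring
    omega
  · intro I hI ρ
    show ((walkMachine n p).run _ ρ _).1 = true ↔ I.Yes
    rw [walk_state n p h0' h2]
    constructor
    · rintro ⟨t, _, h⟩
      exact yes_of_test I _ h
    · intro hy
      obtain ⟨i, j, k, hij, hjk, f1, f2, f3, hs⟩ := sorted_of_yes I hI hy
      obtain ⟨t, ht, hv⟩ := h3 (trip n i j k) ⟨i, i.isLt, j, j.isLt, k, k.isLt, rfl⟩
      refine ⟨t, ht, ?_⟩
      rw [hv]
      exact test_of_lt I i j k hij hjk f1 f2 f3 hs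

end Pool.Agent.Helper5.HB
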