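import Pool.Agent.Helper5.HA.Model
import Pool.Agent.Helper5.HB.Lower
import Pool.Agent.Helper5.HB.Red
import Pool.Agent.Helper5.HB.Upper

/-!
# Exact Triangle on multihead machines: a time-space tradeoff

The machine has `k` two-way read-only heads on the input tape, which move by at most one position
per step; its memory has the states `S`, so `s = log |S|` bits (any work tapes or other storage);
it is randomized and nonuniform: the next state and the moves of the heads are arbitrary functions
of the random bits, the time, the state, the positions of the heads and the scanned symbols. The
input tape contains the part of the matrix above the diagonal, row by row, every entry in an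
arbitrary encoding by `ℓ` symbols of an arbitrary alphabet.

Theorem: `T ^ 2 * (s + k * log (n ℓ)) ≥ ℓ ^ 2 * n ^ 6 / (2 ^ 40 * k ^ 3)` for every machine that
decides Exact Triangle with bounded error in `T ≥ n ^ 2 * ℓ` steps (the time of one scan of the
array). So the exponent 3 is necessary with few heads and little memory, `T ≥ n ^ (5 / 2)` with
about `n` bits of memory, and the bound is nontrivial up to `n ^ 2` bits. Conversely three heads
and two memory states suffice for `4 * n ^ 3` steps (`ℓ = 1`, one symbol per entry).

Idea of the proof: the matrix `A` between the first two classes and the matrix `B` between the last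
two classes are random, the weights between the first and the last class are zero; a zero triangle
is a coincidence of an entry of row `x` of `A` and an entry of column `z` of `B` at the same place
`y`. Divide the run into phases of `g * n * ℓ / 2` steps, where `g` is about `√(s / k)`. In a phase
the heads see at most `2 * k` blocks of `g` consecutive rows of `A`. Alice holds one block of rows
of `A`, Bob holds a block of `g` columns of `B`; the states at the beginning and at the end of the
phases in which Alice's block is visible, and the entries of Bob's columns that are visible in these
phases, form a transcript that is constant on rectangles. Planting a zero triangle at `(x, y, z)`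
changes the probability of an accepting transcript, in total over the `g * n` places of one
matching of the `g` rows with the `g` columns, by at most twice the entropy of the transcript; the
entries of `B` that Bob reveals cost only `1` each, since their entropy cancels. There are `g`
matchings, so that the total over all triangles is at most
`(n ^ 2 / g + T / (ℓ * g) * k * (s + k log (n ℓ)) + T / ℓ * k ^ 2 * g)` up to a constant.
-/

set_option autoImplicit false

namespace Pool.Agent.Helper5.HBFinal

open Pool.Agent.Helper22.ETModel Pool.Agent.Helper5.HA

/-- Time-space tradeoff for Exact Triangle on multihead machines, and a matching upper bound for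
small memory. -/
theorem result :
    (∀ (n ℓ k R T : ℕ) (S Γ : Type) [Fintype S] (enc : Bool → ℤ → ℕ → Γ) (blank : Γ), 3 ≤ n →
      1 ≤ ℓ → 1 ≤ k → n ^ 2 * ℓ ≤ T → ∀ M : Heads S Γ k R, M.Decides n ℓ enc blank T →
        (ℓ : ℝ) ^ 2 * (n : ℝ) ^ 6 ≤ 2 ^ 40 * (k : ℝ) ^ 3 * (T : ℝ) ^ 2 *
          (Real.logb 2 (Fintype.card S) + k * Real.logb 2 ((n : ℝ) * ℓ))) ∧
    (∀ n : ℕ, 3 ≤ n → ∃ (M : Heads Bool (Option (Bool × ℤ)) 3 0) (T : ℕ), T ≤ 4 * n ^ 3 ∧
      ∀ I : Inst n, I.Valid → ∀ ρ : Fin 0 → Bool,
        (M.out ρ (M.run (tape (ℓ := 1) (fun f w _ => some (f, w)) none I) ρ T).1 = true ↔
          I.Yes)) :=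
  ⟨Helper5.HB.headsTradeoff Helper5.HB.segLower, Helper5.HB.headsUpper⟩

end Pool.Agent.Helper5.HBFinal
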