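import Pool.Agent.Helper5.HB.Defs

/-!
# The statements
-/

set_option autoImplicit false

namespace Pool.Agent.Helper5.HB

open Pool.Agent.Helper22.ETModel Pool.Agent.Helper5.HA

/-- The inequality for segmented machines (the logarithm is the natural one). -/
def SegLower : Prop :=
  ∀ (n g P q r R : ℕ) (S : Type) [Fintype S], 3 ≤ n → 1 ≤ g → g ≤ n / 3 → 1 ≤ P →
    ∀ M : Seg n S g q r R, M.Decides P →
      (n : ℝ) ^ 3 ≤ 2 ^ 12 * ((n : ℝ) ^ 2 / g +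
        P * q * (n * Real.log (P * (Fintype.card S : ℝ) ^ 2) + g * r))

/-- Multihead machines: `T ^ 2 * (s + k log (n ℓ)) ≥ ℓ ^ 2 * n ^ 6 / (2 ^ 40 * k ^ 3)`, where
`s = log |S|` is the number of bits of memory. -/
def HeadsTradeoff : Prop :=
  ∀ (n ℓ k R T : ℕ) (S Γ : Type) [Fintype S] (enc : Bool → ℤ → ℕ → Γ) (blank : Γ), 3 ≤ n →
    1 ≤ ℓ → 1 ≤ k → n ^ 2 * ℓ ≤ T → ∀ M : Heads S Γ k R, M.Decides n ℓ enc blank T →
      (ℓ : ℝ) ^ 2 * (n : ℝ) ^ 6 ≤ 2 ^ 40 * (k : ℝ) ^ 3 * (T : ℝ) ^ 2 *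
        (Real.logb 2 (Fintype.card S) + k * Real.logb 2 ((n : ℝ) * ℓ))

/-- Three heads and two memory states are enough for time `4 * n ^ 3`, on all valid instances, if
a tape symbol holds an entry of the matrix. -/
def HeadsUpper : Prop :=
  ∀ n : ℕ, 3 ≤ n → ∃ (M : Heads Bool (Option (Bool × ℤ)) 3 0) (T : ℕ), T ≤ 4 * n ^ 3 ∧
    ∀ I : Inst n, I.Valid → ∀ ρ : Fin 0 → Bool,
      (M.out ρ (M.run (tape (ℓ := 1) (fun f w _ => some (f, w)) none I) ρ T).1 = true ↔ I.Yes)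

end Pool.Agent.Helper5.HB
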