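import Pool.Agent.Helper5.HB.Tr
import Pool.Agent.Helper5.HB.Core
import Pool.Agent.Helper5.HB.Statement
import Pool.Agent.Helper5.HA.Main

/-!
# The lower bound for segmented machines
-/

set_option autoImplicit false

open Finset
open scoped BigOperators

namespace Pool.Agent.Helper5.HB

open Pool.Agent.Helper22.ETModel Pool.Agent.Helper5.HA
open Pool.Agent.Helper8.VS (ind ind_nonneg ind_le_one ind_true ind_false)

section

variable {n Q g q r R : ℕ} {S : Type}

/-- The indicator of the output no. -/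
noncomputable def no (M : Seg n S g q r R) (P : ℕ) (ρ : Fin R → Bool)
    (α β : Fin (n / 3) → Fin (n / 3) → Fin Q) : ℝ :=
  ind (M.out ρ (M.run (inst α β).wt ρ P) = false)

theorem expect_both [NeZero g] [NeZero Q] (G K : Fin (n / 3 / g))
    (F : (Fin (n / 3) → Fin (n / 3) → Fin Q) → (Fin (n / 3) → Fin (n / 3) → Fin Q) → ℝ) :
    𝔼 α, 𝔼 β, F α β =
      𝔼 α : Fin (n / 3) → Fin (n / 3) → Fin Q, 𝔼 β : Fin (n / 3) → Fin (n / 3) → Fin Q,
        𝔼 a : Fin g × Fin (n / 3) → Fin Q, 𝔼 b : Fin g × Fin (n / 3) → Fin Q,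
          F (upd G α a) (upd K β b) := by
  rw [resample_block G (fun α => 𝔼 β, F α β)]
  refine Finset.expect_congr rfl fun α _ => ?_
  rw [Finset.expect_comm]
  have h : ∀ a : Fin g × Fin (n / 3) → Fin Q, 𝔼 β, F (upd G α a) β =
      𝔼 β : Fin (n / 3) → Fin (n / 3) → Fin Q, 𝔼 b : Fin g × Fin (n / 3) → Fin Q,
        F (upd G α a) (upd K β b) := fun a => resample_block K (fun β => F (upd G α a) β)
  rw [Finset.expect_comm]
  simp only [h]
  rw [Finset.expect_comm]

theorem pl_upd [NeZero g] (G K : Fin (n / 3 / g)) (α β : Fin (n / 3) → Fin (n / 3) → Fin Q)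
    (a b : Fin g × Fin (n / 3) → Fin Q) (i j : Fin g) (y : Fin (n / 3)) :
    pl (upd G α a) (upd K β b) (row G i) y (row K j) =
      upd G α (Function.update a (i, y) (b (j, y))) := by
  classical
  funext x y'
  unfold pl
  rw [upd_row]
  by_cases hx : x = row G i
  · subst hx
    rw [Function.update_self, upd_row]
    by_cases hy : y' = y
    · subst hy
      rw [Function.update_self, Function.update_self]
    · rw [Function.update_of_ne hy, upd_row, Function.update_of_ne]
      intro h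
      exact hy (Prod.ext_iff.1 h).2
  · rw [Function.update_of_ne hx]
    by_cases hG : (x : ℕ) / g = G
    · have hr := eq_row G hG
      rw [hr, upd_row, upd_row, Function.update_of_ne]
      intro h
      exact hx (hr.trans (by rw [(Prod.mk.inj h).1]))
    · rw [upd_of_ne G _ _ hG, upd_of_ne G _ _ hG]

/-- The number of phases in which block `G` is open. -/
noncomputable def opens (M : Seg n S g q r R) (P : ℕ) (ρ : Fin R → Bool) (G : Fin (n / 3 / g))
    (α β : Fin (n / 3) → Fin (n / 3) → Fin Q) : ℕ :=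
  (univ.filter fun p : Fin P => (G : ℕ) ∈ M.opn ρ p (M.run (inst α β).wt ρ p)).card

theorem cost_eq [Fintype S] (M : Seg n S g q r R) (P : ℕ) (ρ : Fin R → Bool)
    (G : Fin (n / 3 / g)) (α β : Fin (n / 3) → Fin (n / 3) → Fin Q) :
    cost P (fun p : Fin P => entry M ρ G α β p) =
      Real.log 2 + opens M P ρ G α β * Real.log (P * (Fintype.card S : ℝ) ^ 2) := by
  unfold cost opens
  congr 1
  rw [← nsmul_eq_mul, ← sum_const, sum_filter]
  refine sum_congr rfl fun p _ => ?_
  simp only [entry]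
  split_ifs <;> rfl

/-- The bound for two blocks and one matching of their rows. -/
theorem pair_bound [Fintype S] [NeZero g] [NeZero Q] (M : Seg n S g q r R)
    (P : ℕ) (ρ : Fin R → Bool) (G K : Fin (n / 3 / g)) (c : Fin g) :
    ∑ i : Fin g, ∑ y, (𝔼 α : Fin (n / 3) → Fin (n / 3) → Fin Q,
      𝔼 β : Fin (n / 3) → Fin (n / 3) → Fin Q,
      (no M P ρ α β - no M P ρ (pl α β (row G i) y (row K (i + c))) β)) ≤
      𝔼 α : Fin (n / 3) → Fin (n / 3) → Fin Q, 𝔼 β : Fin (n / 3) → Fin (n / 3) → Fin Q,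
        (2 * (Real.log 2 + Real.log 3 +
          opens M P ρ G α β * Real.log (P * (Fintype.card S : ℝ) ^ 2)) +
          ((known M ρ K fun p : Fin P => entry M ρ G α β p).card : ℝ)) := by
  classical
  have : Nonempty (Fin Q) := ⟨⟨0, Nat.pos_of_ne_zero (NeZero.ne Q)⟩⟩
  have : Nonempty S := ⟨M.init ρ⟩
  set W : Bool × (Fin P → Option (S × S)) × (Fin g × Fin (n / 3) → Fin Q) → ℝ :=
    wgt P (0 : Fin Q) (known M ρ K) with hW
  have hW1 : ∑ l, W l ≤ 1 := kraft P _ _
  have hW0 : ∀ l, 0 ≤ W l := by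
    intro l
    simp only [hW, wgt]
    split_ifs
    · positivity
    · exact le_rfl
  have hWt : ∀ α β : Fin (n / 3) → Fin (n / 3) → Fin Q, W (tr M P ρ G K α β) =
      Real.exp (-(cost P (fun p : Fin P => entry M ρ G α β p) +
        (known M ρ K fun p : Fin P => entry M ρ G α β p).card *
          Real.log (Fintype.card (Fin Q)))) / 3 := by
    intro α β
    simp only [hW, wgt, tr]
    rw [if_pos]
    intro y hy
    unfold mask
    rw [if_neg hy]
  have hlog : ∀ α β : Fin (n / 3) → Fin (n / 3) → Fin Q, -Real.log (W (tr M P ρ G K α β)) -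
      ((known M ρ K (tr M P ρ G K α β).2.1).card : ℝ) * Real.log (Fintype.card (Fin Q)) =
      Real.log 2 + Real.log 3 +
        opens M P ρ G α β * Real.log (P * (Fintype.card S : ℝ) ^ 2) := by
    intro α β
    rw [hWt, Real.log_div (Real.exp_pos _).ne' (by norm_num), Real.log_exp, cost_eq]
    simp only [tr]
    ring
  have hL : ∑ i : Fin g, ∑ y, (𝔼 α : Fin (n / 3) → Fin (n / 3) → Fin Q,
      𝔼 β : Fin (n / 3) → Fin (n / 3) → Fin Q,
        (no M P ρ α β - no M P ρ (pl α β (row G i) y (row K (i + c))) β)) =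
      𝔼 α : Fin (n / 3) → Fin (n / 3) → Fin Q, 𝔼 β : Fin (n / 3) → Fin (n / 3) → Fin Q,
        ∑ i : Fin g, ∑ y, (no M P ρ α β - no M P ρ (pl α β (row G i) y (row K (i + c))) β) := by
    simp only [Finset.expect_sum_comm]
  rw [hL, expect_both G K (fun α β => ∑ i : Fin g, ∑ y,
    (no M P ρ α β - no M P ρ (pl α β (row G i) y (row K (i + c))) β)),
    expect_both G K (fun α β => 2 * (Real.log 2 + Real.log 3 +
          opens M P ρ G α β * Real.log (P * (Fintype.card S : ℝ) ^ 2)) +
          ((known M ρ K fun p : Fin P => entry M ρ G α β p).card : ℝ))]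
  refine Finset.expect_le_expect fun α _ => Finset.expect_le_expect fun β _ => ?_
  have key := two_party_known
    (fun a b : Fin g × Fin (n / 3) → Fin Q => tr M P ρ G K (upd G α a) (upd K β b))
    (fun a b a' b' h => tr_rect M P ρ G K α β a b a' b' h) W hW0
    (fun a b => by rw [hWt]; positivity) hW1 (fun l => known M ρ K l.2.1)
    (fun a b a' b' h => tr_known M P ρ G K α β a b a' b' h)
    ((Equiv.addRight c).prodCongr (Equiv.refl (Fin (n / 3))))
    (fun l => ind (l.1 = false)) (fun l => ind_nonneg _) (fun l => ind_le_one _)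
  simp only [hlog] at key
  refine le_trans (le_of_eq ?_) key
  rw [Fintype.sum_prod_type]
  have hE : 𝔼 a : Fin g × Fin (n / 3) → Fin Q, 𝔼 b : Fin g × Fin (n / 3) → Fin Q,
      ∑ i : Fin g, ∑ y, (no M P ρ (upd G α a) (upd K β b) -
        no M P ρ (pl (upd G α a) (upd K β b) (row G i) y (row K (i + c))) (upd K β b)) =
      ∑ i : Fin g, ∑ y, 𝔼 a : Fin g × Fin (n / 3) → Fin Q,
        𝔼 b : Fin g × Fin (n / 3) → Fin Q, (no M P ρ (upd G α a) (upd K β b) -
        no M P ρ (pl (upd G α a) (upd K β b) (row G i) y (row K (i + c))) (upd K β b)) := by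
    simp only [Finset.expect_sum_comm]
  rw [hE]
  refine sum_congr rfl fun i _ => sum_congr rfl fun y _ => ?_
  refine Finset.expect_congr rfl fun a _ => Finset.expect_congr rfl fun b _ => ?_
  rw [pl_upd]
  rfl

/-- The places of block `K` of `β` in the cells `C`. -/
noncomputable def places (C : Finset (Fin n × Fin n)) (K : Fin (n / 3 / g)) :
    Finset (Fin g × Fin (n / 3)) :=
  open Classical in
  univ.filter fun y => ∃ c ∈ C, keyB n c.1 c.2 = some (row K y.1, y.2)

theorem sum_places (C : Finset (Fin n × Fin n)) :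
    ∑ K : Fin (n / 3 / g), (places C K).card ≤ C.card := by
  classical
  rw [← card_sigma]
  set T := (univ : Finset (Fin (n / 3 / g))).sigma fun K => places (g := g) C K with hT
  have hinj : Set.InjOn (fun s : (_ : Fin (n / 3 / g)) × (Fin g × Fin (n / 3)) =>
      (some (row s.1 s.2.1, s.2.2) : Option (Fin (n / 3) × Fin (n / 3)))) T := by
    intro s _ s' _ h
    simp only [Option.some.injEq, Prod.mk.injEq] at h
    obtain ⟨K, i, y⟩ := s
    obtain ⟨K', i', y'⟩ := s'
    simp only at h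
    have h1 : K = K' := by
      apply Fin.ext
      rw [← row_div K i, ← row_div K' i', h.1]
    subst h1
    have h2 : i = i' := by
      have h3 := congrArg Fin.val h.1
      apply Fin.ext
      simp only [row] at h3
      omega
    rw [h2, h.2]
  rw [← card_image_of_injOn hinj]
  refine (card_le_card (t := C.image fun c => keyB n c.1 c.2) ?_).trans card_image_le
  intro o ho
  rw [mem_image] at ho
  obtain ⟨s, hs, rfl⟩ := ho
  rw [hT, mem_sigma] at hs
  have h1 := hs.2
  unfold places at h1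
  rw [mem_filter] at h1
  obtain ⟨c, hc, hk⟩ := h1.2
  exact mem_image.2 ⟨c, hc, hk⟩

theorem known_card (M : Seg n S g q r R) (P : ℕ) (ρ : Fin R → Bool) (G K : Fin (n / 3 / g))
    (α β : Fin (n / 3) → Fin (n / 3) → Fin Q) :
    (known M ρ K fun p : Fin P => entry M ρ G α β p).card ≤
      ∑ p : Fin P, if (G : ℕ) ∈ M.opn ρ p (M.run (inst α β).wt ρ p) then
        (places (M.prb ρ p (M.run (inst α β).wt ρ p)) K).card else 0 := by
  classical
  have hsub : (known M ρ K fun p : Fin P => entry M ρ G α β p) ⊆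
      (univ.filter fun p : Fin P => (G : ℕ) ∈ M.opn ρ p (M.run (inst α β).wt ρ p)).biUnion
        fun p => places (M.prb ρ p (M.run (inst α β).wt ρ p)) K := by
    intro y hy
    unfold known at hy
    rw [mem_filter] at hy
    obtain ⟨-, p, t, hp, hc⟩ := hy
    simp only [entry] at hp
    split_ifs at hp with h
    · have ht := Option.some.inj hp
      rw [← ht] at hc
      rw [mem_biUnion]
      refine ⟨p, by rw [mem_filter]; exact ⟨mem_univ _, h⟩, ?_⟩
      unfold places
      rw [mem_filter]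
      exact ⟨mem_univ _, hc⟩
  refine (card_le_card hsub).trans (card_biUnion_le.trans (le_of_eq ?_))
  rw [sum_filter]

/-- The sum of the bounds. -/
theorem sum_bound [Fintype S] (M : Seg n S g q r R) (P : ℕ) (ρ : Fin R → Bool)
    (α β : Fin (n / 3) → Fin (n / 3) → Fin Q) (hL : 0 ≤ Real.log (P * (Fintype.card S : ℝ) ^ 2)) :
    ∑ G : Fin (n / 3 / g), ∑ K : Fin (n / 3 / g), (2 * (Real.log 2 + Real.log 3 +
          opens M P ρ G α β * Real.log (P * (Fintype.card S : ℝ) ^ 2)) +
          ((known M ρ K fun p : Fin P => entry M ρ G α β p).card : ℝ)) ≤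
      2 * ((n / 3 / g : ℕ) : ℝ) ^ 2 * (Real.log 2 + Real.log 3) +
        P * q * (2 * (n / 3 / g : ℕ) * Real.log (P * (Fintype.card S : ℝ) ^ 2) + r) := by
  classical
  set L := Real.log (P * (Fintype.card S : ℝ) ^ 2) with hLdef
  -- openings
  have h0 : ∀ p : Fin P, (univ.filter fun G : Fin (n / 3 / g) =>
      (G : ℕ) ∈ M.opn ρ p (M.run (inst α β).wt ρ p)).card ≤ q := by
    intro p
    refine le_trans ?_ (M.card_opn ρ p (M.run (inst α β).wt ρ p))
    refine card_le_card_of_injOn (fun G : Fin (n / 3 / g) => (G : ℕ)) ?_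
      (fun x _ y _ h => Fin.ext h)
    intro G hG
    simp only [coe_filter, mem_univ, true_and] at hG
    exact hG
  have h1 : ∑ G : Fin (n / 3 / g), opens M P ρ G α β ≤ P * q := by
    unfold opens
    simp only [card_filter]
    rw [sum_comm]
    calc ∑ p : Fin P, ∑ G : Fin (n / 3 / g),
          (if (G : ℕ) ∈ M.opn ρ p (M.run (inst α β).wt ρ p) then 1 else 0)
        ≤ ∑ _p : Fin P, q := by
          refine sum_le_sum fun p _ => ?_
          rw [← card_filter]
          exact h0 p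
      _ = P * q := by rw [sum_const, card_univ, Fintype.card_fin, smul_eq_mul]
  have h2 : ∑ G : Fin (n / 3 / g), ∑ K : Fin (n / 3 / g),
      (known M ρ K fun p : Fin P => entry M ρ G α β p).card ≤ P * q * r := by
    calc ∑ G : Fin (n / 3 / g), ∑ K : Fin (n / 3 / g),
          (known M ρ K fun p : Fin P => entry M ρ G α β p).card
        ≤ ∑ G : Fin (n / 3 / g), ∑ K : Fin (n / 3 / g), ∑ p : Fin P,
            (if (G : ℕ) ∈ M.opn ρ p (M.run (inst α β).wt ρ p) then
              (places (M.prb ρ p (M.run (inst α β).wt ρ p)) K).card else 0) :=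
          sum_le_sum fun G _ => sum_le_sum fun K _ => known_card M P ρ G K α β
      _ = ∑ p : Fin P, ∑ G : Fin (n / 3 / g), ∑ K : Fin (n / 3 / g),
            (if (G : ℕ) ∈ M.opn ρ p (M.run (inst α β).wt ρ p) then
              (places (M.prb ρ p (M.run (inst α β).wt ρ p)) K).card else 0) := by
          rw [sum_comm (s := (univ : Finset (Fin P)))]
          refine sum_congr rfl fun G _ => ?_
          rw [sum_comm]
      _ ≤ ∑ _p : Fin P, q * r := by
          refine sum_le_sum fun p _ => ?_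
          calc ∑ G : Fin (n / 3 / g), ∑ K : Fin (n / 3 / g),
                (if (G : ℕ) ∈ M.opn ρ p (M.run (inst α β).wt ρ p) then
                  (places (M.prb ρ p (M.run (inst α β).wt ρ p)) K).card else 0)
              ≤ ∑ G : Fin (n / 3 / g),
                (if (G : ℕ) ∈ M.opn ρ p (M.run (inst α β).wt ρ p) then r else 0) := by
                refine sum_le_sum fun G _ => ?_
                split_ifs
                · exact (sum_places _).trans (M.card_prb ρ p _)
                · simp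
            _ = (univ.filter fun G : Fin (n / 3 / g) =>
                  (G : ℕ) ∈ M.opn ρ p (M.run (inst α β).wt ρ p)).card * r := by
                rw [← sum_filter, sum_const, smul_eq_mul]
            _ ≤ q * r := Nat.mul_le_mul_right _ (h0 p)
      _ = P * q * r := by
          rw [sum_const, card_univ, Fintype.card_fin, smul_eq_mul, mul_assoc]
  have h1' : ∑ G : Fin (n / 3 / g), (opens M P ρ G α β : ℝ) ≤ P * q := by exact_mod_cast h1
  have h2' : ∑ G : Fin (n / 3 / g), ∑ K : Fin (n / 3 / g),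
      ((known M ρ K fun p : Fin P => entry M ρ G α β p).card : ℝ) ≤ P * q * r := by
    exact_mod_cast h2
  have h3 : ∑ G : Fin (n / 3 / g), ∑ K : Fin (n / 3 / g), (2 * (Real.log 2 + Real.log 3 +
          opens M P ρ G α β * L) +
          ((known M ρ K fun p : Fin P => entry M ρ G α β p).card : ℝ)) =
      2 * ((n / 3 / g : ℕ) : ℝ) ^ 2 * (Real.log 2 + Real.log 3) +
      2 * (n / 3 / g : ℕ) * L * ∑ G : Fin (n / 3 / g), (opens M P ρ G α β : ℝ) +
      ∑ G : Fin (n / 3 / g), ∑ K : Fin (n / 3 / g),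
      ((known M ρ K fun p : Fin P => entry M ρ G α β p).card : ℝ) := by
    simp only [sum_add_distrib, sum_const, card_univ, Fintype.card_fin, nsmul_eq_mul, mul_sum]
    have : ∀ G : Fin (n / 3 / g), ((n / 3 / g : ℕ) : ℝ) *
        (2 * (Real.log 2 + Real.log 3 + opens M P ρ G α β * L)) =
        ((n / 3 / g : ℕ) : ℝ) * (2 * (Real.log 2 + Real.log 3)) +
          2 * (n / 3 / g : ℕ) * L * (opens M P ρ G α β : ℝ) := fun G => by ring
    simp only [this, sum_add_distrib, sum_const, card_univ, Fintype.card_fin, nsmul_eq_mul]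
    ring
  rw [h3]
  have h4 : 2 * (n / 3 / g : ℕ) * L * ∑ G : Fin (n / 3 / g), (opens M P ρ G α β : ℝ) ≤
      2 * (n / 3 / g : ℕ) * L * (P * q) :=
    mul_le_mul_of_nonneg_left h1' (by positivity)
  linarith

/-- The average over the random bits and the instances. -/
theorem one_lower [NeZero Q] (hn : 3 ≤ n) (hQn : Q ≤ n ^ 300) (M : Seg n S g q r R) (P : ℕ)
    (hM : M.Decides P) : ∀ x y z : Fin (n / 3), 1 / 3 - ((n / 3 : ℕ) : ℝ) ^ 3 / Q ≤
      𝔼 ρ : Fin R → Bool, 𝔼 α : Fin (n / 3) → Fin (n / 3) → Fin Q,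
        𝔼 β : Fin (n / 3) → Fin (n / 3) → Fin Q,
        (no M P ρ α β - no M P ρ (pl α β x y z) β) := by
  classical
  have hR : (0 : ℝ) < 2 ^ R := by positivity
  have : Nonempty (Fin Q) := ⟨⟨0, Nat.pos_of_ne_zero (NeZero.ne Q)⟩⟩
  -- no-instances
  have hno : ∀ α β : Fin (n / 3) → Fin (n / 3) → Fin Q,
      2 / 3 - (if ∃ x y z, α x y = β z y then (1 : ℝ) else 0) ≤ 𝔼 ρ, no M P ρ α β := by
    intro α β
    by_cases hy : ∃ x y z, α x y = β z y
    · rw [if_pos hy]
      have : 0 ≤ 𝔼 ρ, no M P ρ α β := Finset.expect_nonneg fun ρ _ => ind_nonneg _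
      linarith
    · rw [if_neg hy]
      have h1 := hM (inst α β) (inst_valid hQn (by omega) α β) (inst_thirds α β)
      have hY : ¬ (inst α β).Yes := fun h => hy ((inst_yes α β).1 h)
      have h2 : {ρ : Fin R → Bool | M.out ρ (M.run (inst α β).wt ρ P) = true ↔ (inst α β).Yes} =
          {ρ | M.out ρ (M.run (inst α β).wt ρ P) = false} := by
        ext ρ
        simp only [Set.mem_ofPred_eq, hY, iff_false, Bool.not_eq_true]
      rw [h2] at h1
      unfold no
      rw [expect_ind, sub_zero, le_div_iff₀ hR]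
      have h3 : ((2 * 2 ^ R : ℕ) : ℝ) ≤ ((3 * {ρ : Fin R → Bool |
        M.out ρ (M.run (inst α β).wt ρ P) = false}.ncard : ℕ) : ℝ) := by exact_mod_cast h1
      push_cast at h3
      linarith
  -- planted instances
  have hpl : ∀ (α β : Fin (n / 3) → Fin (n / 3) → Fin Q) (x y z : Fin (n / 3)),
      𝔼 ρ, no M P ρ (pl α β x y z) β ≤ 1 / 3 := by
    intro α β x y z
    have hY : (inst (pl α β x y z) β).Yes := by
      rw [inst_yes]
      refine ⟨x, y, z, ?_⟩
      unfold pl
      rw [Function.update_self, Function.update_self]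
    have h1 := hM (inst (pl α β x y z) β) (inst_valid hQn (by omega) _ β) (inst_thirds _ β)
    have h2 : {ρ : Fin R → Bool | M.out ρ (M.run (inst (pl α β x y z) β).wt ρ P) = true ↔
        (inst (pl α β x y z) β).Yes} =
        {ρ | M.out ρ (M.run (inst (pl α β x y z) β).wt ρ P) = true} := by
      ext ρ
      simp only [Set.mem_ofPred_eq, hY, iff_true]
    rw [h2] at h1
    have h3 : ∀ ρ : Fin R → Bool, no M P ρ (pl α β x y z) β =
        1 - ind (M.out ρ (M.run (inst (pl α β x y z) β).wt ρ P) = true) := by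
      intro ρ
      unfold no
      cases h : M.out ρ (M.run (inst (pl α β x y z) β).wt ρ P)
      · rw [ind_true rfl, ind_false (by simp)]; ring
      · rw [ind_false (by simp), ind_true rfl]; ring
    simp only [h3]
    rw [Finset.expect_sub_distrib, expect_ind, Finset.expect_const Finset.univ_nonempty]
    have h4 : ((2 * 2 ^ R : ℕ) : ℝ) ≤ ((3 * {ρ : Fin R → Bool |
        M.out ρ (M.run (inst (pl α β x y z) β).wt ρ P) = true}.ncard : ℕ) : ℝ) := by
      exact_mod_cast h1
    push_cast at h4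
    have h5 : (2 / 3 : ℝ) ≤ ({ρ : Fin R → Bool |
        M.out ρ (M.run (inst (pl α β x y z) β).wt ρ P) = true}.ncard : ℝ) / 2 ^ R := by
      rw [le_div_iff₀ hR]; linarith
    linarith
  -- one triangle
  intro x y z
  have h1 : 𝔼 ρ : Fin R → Bool, 𝔼 α : Fin (n / 3) → Fin (n / 3) → Fin Q,
      𝔼 β : Fin (n / 3) → Fin (n / 3) → Fin Q,
      (no M P ρ α β - no M P ρ (pl α β x y z) β) =
      𝔼 α : Fin (n / 3) → Fin (n / 3) → Fin Q, 𝔼 β : Fin (n / 3) → Fin (n / 3) → Fin Q,
        ((𝔼 ρ, no M P ρ α β) - 𝔼 ρ, no M P ρ (pl α β x y z) β) := by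
    rw [Finset.expect_comm]
    refine Finset.expect_congr rfl fun α _ => ?_
    rw [Finset.expect_comm]
    refine Finset.expect_congr rfl fun β _ => ?_
    rw [Finset.expect_sub_distrib]
  rw [h1]
  have h2 : 𝔼 α : Fin (n / 3) → Fin (n / 3) → Fin Q, 𝔼 β : Fin (n / 3) → Fin (n / 3) → Fin Q,
        ((2 / 3 - (if ∃ x y z, α x y = β z y then (1 : ℝ) else 0)) - 1 / 3) ≤
      𝔼 α : Fin (n / 3) → Fin (n / 3) → Fin Q, 𝔼 β : Fin (n / 3) → Fin (n / 3) → Fin Q,
        ((𝔼 ρ, no M P ρ α β) - 𝔼 ρ, no M P ρ (pl α β x y z) β) :=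
    Finset.expect_le_expect fun α _ => Finset.expect_le_expect fun β _ =>
      sub_le_sub (hno α β) (hpl α β x y z)
  refine le_trans ?_ h2
  simp only [Finset.expect_sub_distrib, Finset.expect_const Finset.univ_nonempty]
  have h3 := prob_yes (n := n) (Q := Q)
  linarith

/-- The main inequality. -/
theorem main_ineq [Fintype S] [NeZero g] [NeZero Q] (hn : 3 ≤ n) (hQn : Q ≤ n ^ 300)
    (M : Seg n S g q r R) (P : ℕ) (hP : 1 ≤ P) (hM : M.Decides P) :
    ((n / 3 / g : ℕ) : ℝ) ^ 2 * (g : ℝ) ^ 2 * (n / 3 : ℕ) *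
      (1 / 3 - ((n / 3 : ℕ) : ℝ) ^ 3 / Q) ≤
      g * (2 * ((n / 3 / g : ℕ) : ℝ) ^ 2 * (Real.log 2 + Real.log 3) +
        P * q * (2 * (n / 3 / g : ℕ) * Real.log (P * (Fintype.card S : ℝ) ^ 2) + r)) := by
  classical
  have : Nonempty (Fin Q) := ⟨⟨0, Nat.pos_of_ne_zero (NeZero.ne Q)⟩⟩
  have : Nonempty S := ⟨M.init fun _ => false⟩
  have hL : 0 ≤ Real.log (P * (Fintype.card S : ℝ) ^ 2) := by
    refine Real.log_nonneg ?_
    have hS1 : (1 : ℝ) ≤ Fintype.card S := by exact_mod_cast Fintype.card_pos (α := S)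
    have hP1 : (1 : ℝ) ≤ P := by exact_mod_cast hP
    nlinarith [one_le_pow₀ hS1 (n := 2)]
  have h1 := one_lower hn hQn M P hM
  have h2 : ((n / 3 / g : ℕ) : ℝ) ^ 2 * (g : ℝ) ^ 2 * (n / 3 : ℕ) *
      (1 / 3 - ((n / 3 : ℕ) : ℝ) ^ 3 / Q) =
      ∑ _G : Fin (n / 3 / g), ∑ _K : Fin (n / 3 / g), ∑ _c : Fin g, ∑ _i : Fin g,
        ∑ _y : Fin (n / 3), (1 / 3 - ((n / 3 : ℕ) : ℝ) ^ 3 / Q) := by
    simp only [sum_const, card_univ, Fintype.card_fin, nsmul_eq_mul]
    ring
  rw [h2]
  have h3 : ∑ _G : Fin (n / 3 / g), ∑ _K : Fin (n / 3 / g), ∑ _c : Fin g, ∑ _i : Fin g,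
        ∑ _y : Fin (n / 3), (1 / 3 - ((n / 3 : ℕ) : ℝ) ^ 3 / Q) ≤
      ∑ G : Fin (n / 3 / g), ∑ K : Fin (n / 3 / g), ∑ c : Fin g, ∑ i : Fin g,
        ∑ y : Fin (n / 3), 𝔼 ρ : Fin R → Bool, 𝔼 α : Fin (n / 3) → Fin (n / 3) → Fin Q,
        𝔼 β : Fin (n / 3) → Fin (n / 3) → Fin Q,
        (no M P ρ α β - no M P ρ (pl α β (row G i) y (row K (i + c))) β) :=
    sum_le_sum fun G _ => sum_le_sum fun K _ => sum_le_sum fun c _ => sum_le_sum fun i _ =>
      sum_le_sum fun y _ => h1 _ _ _
  refine h3.trans ?_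
  have h4 : ∑ G : Fin (n / 3 / g), ∑ K : Fin (n / 3 / g), ∑ c : Fin g, ∑ i : Fin g,
        ∑ y : Fin (n / 3), 𝔼 ρ : Fin R → Bool, 𝔼 α : Fin (n / 3) → Fin (n / 3) → Fin Q,
        𝔼 β : Fin (n / 3) → Fin (n / 3) → Fin Q,
        (no M P ρ α β - no M P ρ (pl α β (row G i) y (row K (i + c))) β) =
      𝔼 ρ : Fin R → Bool, ∑ G : Fin (n / 3 / g), ∑ K : Fin (n / 3 / g), ∑ c : Fin g,
        ∑ i : Fin g, ∑ y : Fin (n / 3), 𝔼 α : Fin (n / 3) → Fin (n / 3) → Fin Q,
        𝔼 β : Fin (n / 3) → Fin (n / 3) → Fin Q,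
        (no M P ρ α β - no M P ρ (pl α β (row G i) y (row K (i + c))) β) := by
    simp only [Finset.expect_sum_comm]
  rw [h4]
  refine Finset.expect_le Finset.univ_nonempty fun ρ _ => ?_
  calc ∑ G : Fin (n / 3 / g), ∑ K : Fin (n / 3 / g), ∑ c : Fin g,
        ∑ i : Fin g, ∑ y : Fin (n / 3), 𝔼 α : Fin (n / 3) → Fin (n / 3) → Fin Q,
        𝔼 β : Fin (n / 3) → Fin (n / 3) → Fin Q,
        (no M P ρ α β - no M P ρ (pl α β (row G i) y (row K (i + c))) β)
      ≤ ∑ G : Fin (n / 3 / g), ∑ K : Fin (n / 3 / g), ∑ _c : Fin g,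
        𝔼 α : Fin (n / 3) → Fin (n / 3) → Fin Q, 𝔼 β : Fin (n / 3) → Fin (n / 3) → Fin Q,
        (2 * (Real.log 2 + Real.log 3 +
          opens M P ρ G α β * Real.log (P * (Fintype.card S : ℝ) ^ 2)) +
          ((known M ρ K fun p : Fin P => entry M ρ G α β p).card : ℝ)) :=
        sum_le_sum fun G _ => sum_le_sum fun K _ => sum_le_sum fun c _ => pair_bound M P ρ G K c
    _ = g * 𝔼 α : Fin (n / 3) → Fin (n / 3) → Fin Q, 𝔼 β : Fin (n / 3) → Fin (n / 3) → Fin Q,
        ∑ G : Fin (n / 3 / g), ∑ K : Fin (n / 3 / g),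
        (2 * (Real.log 2 + Real.log 3 +
          opens M P ρ G α β * Real.log (P * (Fintype.card S : ℝ) ^ 2)) +
          ((known M ρ K fun p : Fin P => entry M ρ G α β p).card : ℝ)) := by
        simp only [sum_const, card_univ, Fintype.card_fin, nsmul_eq_mul, ← mul_sum]
        simp only [Finset.expect_sum_comm]
    _ ≤ _ := by
        refine mul_le_mul_of_nonneg_left ?_ (Nat.cast_nonneg _)
        exact Finset.expect_le Finset.univ_nonempty fun α _ =>
          Finset.expect_le Finset.univ_nonempty fun β _ => sum_bound M P ρ α β hL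

end

end Pool.Agent.Helper5.HB
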