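import Pool.Agent.Helper5.HB.Defs
import Pool.Agent.Helper5.HA.Inst

/-!
# Transcripts of segmented machines for two blocks of rows
-/

set_option autoImplicit false

open Finset
open scoped BigOperators

namespace Pool.Agent.Helper5.HB

open Pool.Agent.Helper22.ETModel Pool.Agent.Helper5.HA

/-! ### Kraft's inequality -/

section kraft

variable {Y V S : Type} [Fintype Y] [DecidableEq Y] [Fintype V] [Fintype S]

/-- The cost of one phase. -/
noncomputable def cost1 (P : ℕ) : Option (S × S) → ℝ
  | none => 0
  | some _ => Real.log (P * (Fintype.card S : ℝ) ^ 2)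

/-- The cost of the transcript without the values. -/
noncomputable def cost (P : ℕ) (f : Fin P → Option (S × S)) : ℝ :=
  Real.log 2 + ∑ p, cost1 P (f p)

/-- The weight of a transcript; `D` is the set of the known places. -/
noncomputable def wgt [Nonempty V] (P : ℕ) (d : V) (D : (Fin P → Option (S × S)) → Finset Y)
    (l : Bool × (Fin P → Option (S × S)) × (Y → V)) : ℝ :=
  open Classical in
  if ∀ y, y ∉ D l.2.1 → l.2.2 y = d then
    Real.exp (-(cost P l.2.1 + (D l.2.1).card * Real.log (Fintype.card V))) / 3 else 0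

theorem card_masked (d : V) (D : Finset Y) [DecidableEq V] :
    (univ.filter fun v : Y → V => ∀ y, y ∉ D → v y = d).card = Fintype.card V ^ D.card := by
  have h1 : (univ.filter fun v : Y → V => ∀ y, y ∉ D → v y = d) =
      Fintype.piFinset fun y => if y ∈ D then univ else {d} := by
    ext v
    simp only [mem_filter, mem_univ, true_and, Fintype.mem_piFinset]
    refine forall_congr' fun y => ?_
    by_cases hy : y ∈ D
    · simp [hy]
    · simp [hy]
  rw [h1, Fintype.card_piFinset]
  have h2 : ∀ y, (if y ∈ D then (univ : Finset V) else {d}).card =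
      if y ∈ D then Fintype.card V else 1 := by
    intro y
    split_ifs
    · rfl
    · rfl
  simp only [h2]
  rw [prod_ite_mem, univ_inter, prod_const]

/-- Kraft's inequality. -/
theorem kraft [Nonempty V] [Nonempty S] (P : ℕ) (d : V)
    (D : (Fin P → Option (S × S)) → Finset Y) : ∑ l, wgt P d D l ≤ 1 := by
  classical
  have hV : (0 : ℝ) < Fintype.card V := by exact_mod_cast Fintype.card_pos
  have hS : (0 : ℝ) < Fintype.card S := by exact_mod_cast Fintype.card_pos
  have h1 : ∀ f : Fin P → Option (S × S), ∑ v : Y → V, wgt P d D (true, f, v) =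
      Real.exp (-cost P f) / 3 := by
    intro f
    unfold wgt
    rw [← sum_filter]
    dsimp only
    rw [sum_const]
    have h2 : (univ.filter fun v : Y → V => ∀ y, y ∉ D f → v y = d).card =
        Fintype.card V ^ (D f).card := by convert card_masked d (D f)
    rw [nsmul_eq_mul]
    have h3 : ((univ.filter fun v : Y → V => ∀ y, y ∉ D f → v y = d).card : ℝ) =
        (Fintype.card V : ℝ) ^ (D f).card := by
      rw [h2]; push_cast; rfl
    have h4 : Real.exp (-(cost P f + (D f).card * Real.log (Fintype.card V))) =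
        Real.exp (-cost P f) / (Fintype.card V : ℝ) ^ (D f).card := by
      rw [neg_add, Real.exp_add, Real.exp_neg ((D f).card * _), Real.exp_nat_mul,
        Real.exp_log hV]
      rfl
    rw [h3, h4]
    field_simp
  have h1' : ∀ f : Fin P → Option (S × S), ∑ v : Y → V, wgt P d D (false, f, v) =
      Real.exp (-cost P f) / 3 := h1
  rw [Fintype.sum_prod_type]
  simp only [Fintype.sum_bool, Fintype.sum_prod_type, h1, h1']
  have h5 : ∀ f : Fin P → Option (S × S), Real.exp (-cost P f) =
      (1 / 2) * ∏ p, Real.exp (-cost1 P (f p)) := by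
    intro f
    unfold cost
    rw [neg_add, Real.exp_add, Real.exp_neg, Real.exp_log (by norm_num), ← Finset.sum_neg_distrib,
      Real.exp_sum]
    norm_num
  have h6 : ∑ f : Fin P → Option (S × S), Real.exp (-cost P f) / 3 =
      (1 / 6) * (∑ o : Option (S × S), Real.exp (-cost1 P o)) ^ P := by
    have h2 : ∏ _p : Fin P, ∑ o : Option (S × S), Real.exp (-cost1 P o) =
        ∑ f : Fin P → Option (S × S), ∏ p, Real.exp (-cost1 P (f p)) := by
      rw [Finset.prod_univ_sum, Fintype.piFinset_univ]
    rw [Finset.prod_const, Finset.card_univ, Fintype.card_fin] at h2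
    rw [h2, mul_sum]
    refine sum_congr rfl fun f _ => ?_
    rw [h5]
    ring
  rw [h6]
  have h9 : (∑ o : Option (S × S), Real.exp (-cost1 P o)) ^ P ≤ 3 := by
    rcases Nat.eq_zero_or_pos P with hP | hP
    · subst hP
      norm_num
    have hP' : (0 : ℝ) < P := by exact_mod_cast hP
    have h3 : ∑ o : Option (S × S), Real.exp (-cost1 P o) = 1 + 1 / P := by
      rw [Fintype.sum_option]
      simp only [cost1, neg_zero, Real.exp_zero, Finset.sum_const, Finset.card_univ, nsmul_eq_mul]
      rw [Real.exp_neg, Real.exp_log (by positivity), Fintype.card_prod]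
      push_cast
      field_simp
    rw [h3]
    calc (1 + 1 / (P : ℝ)) ^ P
        ≤ Real.exp (1 / (P : ℝ)) ^ P := by
          refine pow_le_pow_left₀ (by positivity) ?_ _
          have := Real.add_one_le_exp (1 / (P : ℝ))
          linarith
      _ = Real.exp 1 := by
          rw [← Real.exp_nat_mul]
          congr 1
          field_simp
      _ ≤ 3 := by
          have := Real.exp_one_lt_d9
          linarith
  linarith

end kraft

/-! ### Blocks -/

section blocks

variable {n Q g q r R : ℕ} {S : Type}

theorem row_lt (G : Fin (n / 3 / g)) (i : Fin g) : (G : ℕ) * g + i < n / 3 := by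
  have h1 : ((G : ℕ) + 1) * g ≤ n / 3 := by
    have := Nat.mul_le_mul_right g (Nat.succ_le_of_lt G.2)
    exact this.trans (Nat.div_mul_le_self _ _)
  have := i.2
  rw [add_mul, one_mul] at h1
  omega

/-- Row `i` of block `G`. -/
def row (G : Fin (n / 3 / g)) (i : Fin g) : Fin (n / 3) := ⟨(G : ℕ) * g + i, row_lt G i⟩

/-- Replace block `G` of rows. -/
def upd [NeZero g] (G : Fin (n / 3 / g)) (α : Fin (n / 3) → Fin (n / 3) → Fin Q)
    (a : Fin g × Fin (n / 3) → Fin Q) : Fin (n / 3) → Fin (n / 3) → Fin Q :=
  fun x y => if (x : ℕ) / g = G then a (Fin.ofNat g x, y) else α x y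

theorem row_div (G : Fin (n / 3 / g)) (i : Fin g) : (row G i : ℕ) / g = G := by
  have hg : 0 < g := Nat.lt_of_le_of_lt (Nat.zero_le _) i.2
  show ((G : ℕ) * g + i) / g = G
  rw [mul_comm, Nat.mul_add_div hg, Nat.div_eq_of_lt i.2, add_zero]

theorem row_ofNat [NeZero g] (G : Fin (n / 3 / g)) (i : Fin g) :
    Fin.ofNat g (row G i : ℕ) = i := by
  apply Fin.ext
  show ((G : ℕ) * g + i) % g = i
  rw [Nat.mul_add_mod', Nat.mod_eq_of_lt i.2]

theorem upd_row [NeZero g] (G : Fin (n / 3 / g)) (α : Fin (n / 3) → Fin (n / 3) → Fin Q)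
    (a : Fin g × Fin (n / 3) → Fin Q) (i : Fin g) (y : Fin (n / 3)) :
    upd G α a (row G i) y = a (i, y) := by
  unfold upd
  rw [if_pos (row_div G i), row_ofNat]

theorem upd_of_ne [NeZero g] (G : Fin (n / 3 / g)) (α : Fin (n / 3) → Fin (n / 3) → Fin Q)
    (a : Fin g × Fin (n / 3) → Fin Q) {x : Fin (n / 3)} (hx : (x : ℕ) / g ≠ G) :
    upd G α a x = α x := by
  funext y
  unfold upd
  rw [if_neg hx]

theorem eq_row [NeZero g] (G : Fin (n / 3 / g)) {x : Fin (n / 3)} (hx : (x : ℕ) / g = G) :
    x = row G (Fin.ofNat g x) := by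
  apply Fin.ext
  show (x : ℕ) = (G : ℕ) * g + (x : ℕ) % g
  rw [← hx, mul_comm, Nat.div_add_mod]

/-- The content of block `G`. -/
def ext (G : Fin (n / 3 / g)) (α : Fin (n / 3) → Fin (n / 3) → Fin Q) :
    Fin g × Fin (n / 3) → Fin Q := fun p => α (row G p.1) p.2

theorem upd_ext [NeZero g] (G : Fin (n / 3 / g)) (α : Fin (n / 3) → Fin (n / 3) → Fin Q)
    (a : Fin g × Fin (n / 3) → Fin Q) : upd G (upd G α a) (ext G α) = α := by
  funext x y
  by_cases hx : (x : ℕ) / g = G
  · rw [eq_row G hx, upd_row]
    rfl
  · rw [upd_of_ne G _ _ hx, upd_of_ne G _ _ hx]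

theorem ext_upd [NeZero g] (G : Fin (n / 3 / g)) (α : Fin (n / 3) → Fin (n / 3) → Fin Q)
    (a : Fin g × Fin (n / 3) → Fin Q) : ext G (upd G α a) = a := by
  funext p
  unfold ext
  rw [upd_row]

/-- Resampling a block. -/
theorem resample_block [NeZero g] [NeZero Q] (G : Fin (n / 3 / g))
    (F : (Fin (n / 3) → Fin (n / 3) → Fin Q) → ℝ) :
    𝔼 α, F α = 𝔼 α : Fin (n / 3) → Fin (n / 3) → Fin Q,
      𝔼 a : Fin g × Fin (n / 3) → Fin Q, F (upd G α a) := by
  classical
  have hinv : Function.Involutive
      (fun p : (Fin (n / 3) → Fin (n / 3) → Fin Q) × (Fin g × Fin (n / 3) → Fin Q) =>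
        (upd G p.1 p.2, ext G p.1)) := by
    intro p
    dsimp only
    rw [upd_ext, ext_upd]
  have h1 : 𝔼 α : Fin (n / 3) → Fin (n / 3) → Fin Q,
      𝔼 a : Fin g × Fin (n / 3) → Fin Q, F (upd G α a) =
      𝔼 p : (Fin (n / 3) → Fin (n / 3) → Fin Q) × (Fin g × Fin (n / 3) → Fin Q),
        F (upd G p.1 p.2) := by
    rw [← Finset.univ_product_univ, Finset.expect_product]
  have h2 : 𝔼 p : (Fin (n / 3) → Fin (n / 3) → Fin Q) × (Fin g × Fin (n / 3) → Fin Q),
      F (upd G p.1 p.2) =
      𝔼 p : (Fin (n / 3) → Fin (n / 3) → Fin Q) × (Fin g × Fin (n / 3) → Fin Q), F p.1 :=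
    Fintype.expect_equiv hinv.toPerm _ _ fun p => rfl
  rw [h1, h2, ← Finset.univ_product_univ, Finset.expect_product]
  refine Finset.expect_congr rfl fun α _ => ?_
  exact (Finset.expect_const Finset.univ_nonempty _).symm

/-! ### What is visible -/

/-- Another content of a block of `A` that is not open does not matter. -/
theorem see_closed [NeZero g] (G : Fin (n / 3 / g)) (α β : Fin (n / 3) → Fin (n / 3) → Fin Q)
    (a a' : Fin g × Fin (n / 3) → Fin Q) (O : Finset ℕ) (C : Finset (Fin n × Fin n))
    (hG : (G : ℕ) ∉ O) :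
    see g O C (inst (upd G α a) β).wt = see g O C (inst (upd G α a') β).wt := by
  funext u v
  unfold see
  by_cases h1 : InA n u v
  · rw [if_pos h1, if_pos h1]
    by_cases h2 : (u : ℕ) / g ∈ O
    · rw [if_pos h2, if_pos h2]
      have h3 := (InA_iff u v).1 h1
      show upW _ β u v + upW _ β v u = upW _ β u v + upW _ β v u
      rw [upW_At _ β u v h3, upW_At _ β u v h3, upW_A _ (upd G α a') β β u v h3 (by
        have hne : ((⟨u, h3.1⟩ : Fin (n / 3)) : ℕ) / g ≠ G := by
          intro h
          exact hG (h ▸ h2)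
        rw [upd_of_ne G α a hne, upd_of_ne G α a' hne])]
    · rw [if_neg h2, if_neg h2]
  · rw [if_neg h1, if_neg h1]
    by_cases h2 : (u, v) ∈ C
    · rw [if_pos h2, if_pos h2]
      exact hide_eq_of _ _ β β u v (fun _ => rfl) (fun _ => rfl)
    · rw [if_neg h2, if_neg h2]

/-- Places of block `K` of `β` that are not read do not matter. -/
theorem see_known [NeZero g] (K : Fin (n / 3 / g)) (α β : Fin (n / 3) → Fin (n / 3) → Fin Q)
    (b b' : Fin g × Fin (n / 3) → Fin Q) (O : Finset ℕ) (C : Finset (Fin n × Fin n))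
    (h : ∀ i y, (∃ c ∈ C, keyB n c.1 c.2 = some (row K i, y)) → b (i, y) = b' (i, y)) :
    see g O C (inst α (upd K β b)).wt = see g O C (inst α (upd K β b')).wt := by
  funext u v
  unfold see
  by_cases h1 : InA n u v
  · rw [if_pos h1, if_pos h1]
    by_cases h2 : (u : ℕ) / g ∈ O
    · rw [if_pos h2, if_pos h2]
      have h3 := (InA_iff u v).1 h1
      show upW α _ u v + upW α _ v u = upW α _ u v + upW α _ v u
      rw [upW_At α _ u v h3, upW_At α _ u v h3,
        upW_A α α (upd K β b) (upd K β b') u v h3 rfl]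
    · rw [if_neg h2, if_neg h2]
  · rw [if_neg h1, if_neg h1]
    by_cases h2 : (u, v) ∈ C
    · rw [if_pos h2, if_pos h2]
      refine hide_key _ _ _ _ u v fun z y hk => ?_
      by_cases hz : (z : ℕ) / g = K
      · rw [eq_row K hz, upd_row, upd_row]
        refine h _ _ ⟨(u, v), h2, ?_⟩
        rw [← eq_row K hz]
        exact hk
      · rw [upd_of_ne K _ _ hz, upd_of_ne K _ _ hz]
    · rw [if_neg h2, if_neg h2]

/-! ### The transcript -/

/-- The entry of the transcript for phase `p`. -/
noncomputable def entry (M : Seg n S g q r R) (ρ : Fin R → Bool) (G : Fin (n / 3 / g))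
    (α β : Fin (n / 3) → Fin (n / 3) → Fin Q) (p : ℕ) : Option (S × S) :=
  if (G : ℕ) ∈ M.opn ρ p (M.run (inst α β).wt ρ p) then
    some (M.run (inst α β).wt ρ p, M.run (inst α β).wt ρ (p + 1))
  else none

/-- The places of block `K` of `β` that are read in the phases with entries. -/
noncomputable def known (M : Seg n S g q r R) (ρ : Fin R → Bool) (K : Fin (n / 3 / g)) {P : ℕ}
    (f : Fin P → Option (S × S)) : Finset (Fin g × Fin (n / 3)) :=
  open Classical in
  univ.filter fun y => ∃ (p : Fin P) (t : S × S), f p = some t ∧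
    ∃ c ∈ M.prb ρ p t.1, keyB n c.1 c.2 = some (row K y.1, y.2)

/-- A map with zeros outside `D`. -/
noncomputable def mask [NeZero Q] (D : Finset (Fin g × Fin (n / 3)))
    (b : Fin g × Fin (n / 3) → Fin Q) : Fin g × Fin (n / 3) → Fin Q :=
  open Classical in fun y => if y ∈ D then b y else 0

/-- The transcript. -/
noncomputable def tr [NeZero Q] (M : Seg n S g q r R) (P : ℕ) (ρ : Fin R → Bool)
    (G K : Fin (n / 3 / g)) (α β : Fin (n / 3) → Fin (n / 3) → Fin Q) :
    Bool × (Fin P → Option (S × S)) × (Fin g × Fin (n / 3) → Fin Q) :=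
  (M.out ρ (M.run (inst α β).wt ρ P), fun p => entry M ρ G α β p,
    mask (known M ρ K fun p : Fin P => entry M ρ G α β p) (ext K β))

/-- The transcripts are constant on rectangles. -/
theorem tr_rect [NeZero g] [NeZero Q] (M : Seg n S g q r R) (P : ℕ) (ρ : Fin R → Bool)
    (G K : Fin (n / 3 / g)) (α β : Fin (n / 3) → Fin (n / 3) → Fin Q)
    (a b a' b' : Fin g × Fin (n / 3) → Fin Q)
    (h : tr M P ρ G K (upd G α a) (upd K β b) = tr M P ρ G K (upd G α a') (upd K β b')) :
    tr M P ρ G K (upd G α a) (upd K β b') = tr M P ρ G K (upd G α a) (upd K β b) := by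
  classical
  have hout := congrArg Prod.fst h
  have hent := congrArg (fun t => t.2.1) h
  have hval := congrArg (fun t => t.2.2) h
  simp only [tr] at hout hent hval
  rw [ext_upd, ext_upd, ← hent] at hval
  have hent' : ∀ p < P, entry M ρ G (upd G α a) (upd K β b) p =
      entry M ρ G (upd G α a') (upd K β b') p := fun p hp => congrFun hent ⟨p, hp⟩
  have hkn : ∀ y ∈ known M ρ K (fun p : Fin P => entry M ρ G (upd G α a) (upd K β b) p),
      b y = b' y := by
    intro y hy
    have h1 := congrFun hval y
    unfold mask at h1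
    rwa [if_pos hy, if_pos hy] at h1
  -- one phase
  have hstep : ∀ p < P, M.run (inst (upd G α a) (upd K β b')).wt ρ p =
      M.run (inst (upd G α a') (upd K β b')).wt ρ p →
      M.run (inst (upd G α a) (upd K β b')).wt ρ (p + 1) =
        M.run (inst (upd G α a') (upd K β b')).wt ρ (p + 1) ∧
      entry M ρ G (upd G α a) (upd K β b') p = entry M ρ G (upd G α a) (upd K β b) p := by
    intro p hp hrun
    have he := hent' p hp
    by_cases hx : (G : ℕ) ∈ M.opn ρ p (M.run (inst (upd G α a') (upd K β b')).wt ρ p)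
    · -- block `G` is open
      have he' : entry M ρ G (upd G α a') (upd K β b') p =
          some (M.run (inst (upd G α a') (upd K β b')).wt ρ p,
            M.run (inst (upd G α a') (upd K β b')).wt ρ (p + 1)) := by
        unfold entry
        rw [if_pos hx]
      rw [he'] at he
      have he0 := he
      have hx2 : (G : ℕ) ∈ M.opn ρ p (M.run (inst (upd G α a) (upd K β b)).wt ρ p) := by
        by_contra hcon
        unfold entry at he
        rw [if_neg hcon] at he
        exact absurd he (by simp)
      unfold entry at he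
      rw [if_pos hx2] at he
      have he2 := Option.some.inj he
      have e1 := congrArg Prod.fst he2
      have e2 := congrArg Prod.snd he2
      simp only at e1 e2
      have hrun2 : M.run (inst (upd G α a) (upd K β b')).wt ρ p =
          M.run (inst (upd G α a) (upd K β b)).wt ρ p := hrun.trans e1.symm
      have hnext : M.run (inst (upd G α a) (upd K β b')).wt ρ (p + 1) =
          M.run (inst (upd G α a) (upd K β b)).wt ρ (p + 1) := by
        change M.step _ ρ p _ = M.step _ ρ p _
        rw [hrun2]
        unfold Seg.step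
        rw [see_known K (upd G α a) β b' b _ _ (fun i y hc => (hkn (i, y) ?_).symm)]
        unfold known
        rw [mem_filter]
        refine ⟨mem_univ _, ⟨p, hp⟩, _, he0, ?_⟩
        dsimp only
        rw [← e1]
        exact hc
      refine ⟨hnext.trans e2, ?_⟩
      unfold entry
      rw [hnext, hrun2]
    · -- block `G` is closed
      have hx' : (G : ℕ) ∉ M.opn ρ p (M.run (inst (upd G α a) (upd K β b')).wt ρ p) := by
        rw [hrun]; exact hx
      have hnext : M.run (inst (upd G α a) (upd K β b')).wt ρ (p + 1) =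
          M.run (inst (upd G α a') (upd K β b')).wt ρ (p + 1) := by
        change M.step _ ρ p _ = M.step _ ρ p _
        rw [hrun]
        unfold Seg.step
        rw [see_closed G α (upd K β b') a a' _ _ hx]
      refine ⟨hnext, ?_⟩
      rw [he]
      unfold entry
      rw [if_neg hx, if_neg hx']
  have hall : ∀ p ≤ P, M.run (inst (upd G α a) (upd K β b')).wt ρ p =
      M.run (inst (upd G α a') (upd K β b')).wt ρ p := by
    intro p
    induction p with
    | zero => intro _; rfl
    | succ p ih =>
      intro hp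
      exact (hstep p (by omega) (ih (by omega))).1
  have hent2 : (fun p : Fin P => entry M ρ G (upd G α a) (upd K β b') p) =
      fun p : Fin P => entry M ρ G (upd G α a) (upd K β b) p := by
    funext p
    exact (hstep p p.2 (hall p p.2.le)).2
  unfold tr
  rw [hent2, hall P le_rfl, ← hout, ext_upd, ext_upd, hval]

theorem tr_known [NeZero g] [NeZero Q] (M : Seg n S g q r R) (P : ℕ) (ρ : Fin R → Bool)
    (G K : Fin (n / 3 / g)) (α β : Fin (n / 3) → Fin (n / 3) → Fin Q)
    (a b a' b' : Fin g × Fin (n / 3) → Fin Q)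
    (h : tr M P ρ G K (upd G α a) (upd K β b) = tr M P ρ G K (upd G α a') (upd K β b')) :
    ∀ y ∈ known M ρ K (tr M P ρ G K (upd G α a) (upd K β b)).2.1, b y = b' y := by
  classical
  have hent := congrArg (fun t => t.2.1) h
  have hval := congrArg (fun t => t.2.2) h
  simp only [tr] at hent hval
  rw [ext_upd, ext_upd, ← hent] at hval
  intro y hy
  have h1 := congrFun hval y
  unfold mask at h1
  simp only [tr] at hy
  rwa [if_pos hy, if_pos hy] at h1

end blocks

end Pool.Agent.Helper5.HB
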